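import Pool.Agent.H832R2.JR.Values

set_option autoImplicit false

namespace Pool.Agent.H832R2.JR

open Finset Function

section laminar

variable {α : Type} [DecidableEq α]

/-- laminar families of finite sets -/
def Laminar (F : Finset (Finset α)) : Prop :=
  ∀ S ∈ F, ∀ T ∈ F, S ⊆ T ∨ T ⊆ S ∨ Disjoint S T

/-- a laminar family of nonempty subsets of `P` has at most `2 |P|` members -/
theorem laminar_card (P : Finset α) : ∀ F : Finset (Finset α), Laminar F → (∀ S ∈ F, S ⊆ P) →
    (∀ S ∈ F, S.Nonempty) → F.card ≤ 2 * P.card := by
  induction P using Finset.induction_on with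
  | empty =>
    intro F _ hP hne
    rw [card_empty, mul_zero, Nat.le_zero, card_eq_zero, eq_empty_iff_forall_notMem]
    intro S hS
    obtain ⟨x, hx⟩ := hne S hS
    exact notMem_empty x (hP S hS hx)
  | insert p P hp ih =>
    intro F hF hP hne
    set F' := (F.image fun S => S.erase p).erase ∅ with hF'
    have h1 : Laminar F' := by
      intro S hS T hT
      rw [hF', mem_erase, mem_image] at hS hT
      obtain ⟨_, S', hS', rfl⟩ := hS
      obtain ⟨_, T', hT', rfl⟩ := hT
      rcases hF S' hS' T' hT' with h | h | h
      · exact Or.inl (erase_subset_erase p h)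
      · exact Or.inr (Or.inl (erase_subset_erase p h))
      · exact Or.inr (Or.inr (disjoint_of_subset_left (erase_subset _ _)
          (disjoint_of_subset_right (erase_subset _ _) h)))
    have h2 : ∀ S ∈ F', S ⊆ P := by
      intro S hS
      rw [hF', mem_erase, mem_image] at hS
      obtain ⟨_, S', hS', rfl⟩ := hS
      intro x hx
      rw [mem_erase] at hx
      rcases mem_insert.1 (hP S' hS' hx.2) with h | h
      · exact absurd h hx.1
      · exact h
    have h3 : ∀ S ∈ F', S.Nonempty := by
      intro S hS
      rw [hF', mem_erase] at hS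
      exact nonempty_iff_ne_empty.2 hS.1
    have h4 := ih F' h1 h2 h3
    set F0 := F.filter fun S => p ∉ S with hF0
    set F1 := F.filter fun S => ¬ p ∉ S with hF1
    set G1 := F1.image fun S => S.erase p with hG1
    have h5 : F0.card + F1.card = F.card := card_filter_add_card_filter_not _
    have h6 : G1.card = F1.card := by
      refine card_image_of_injOn ?_
      intro S hS T hT hST
      simp only [hF1, coe_filter, not_not, Set.mem_ofPred_eq] at hS hT
      have := congrArg (insert p) hST
      simp only [insert_erase hS.2, insert_erase hT.2] at this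
      exact this
    have h7 : (F0 ∩ G1).card ≤ 1 := by
      rw [card_le_one]
      have key : ∀ T ∈ F0 ∩ G1, ∀ T' ∈ F0 ∩ G1, insert p T ⊆ insert p T' → T = T' := by
        intro T hT T' hT' hsub
        rw [mem_inter, hF0, mem_filter, hG1, mem_image] at hT hT'
        obtain ⟨⟨hTF, hpT⟩, U, hU, hUT⟩ := hT
        obtain ⟨⟨hTF', hpT'⟩, U', hU', hUT'⟩ := hT'
        rw [hF1, mem_filter, not_not] at hU hU'
        have hiU : insert p T = U := by rw [← hUT]; exact insert_erase hU.2
        have hTT' : T ⊆ T' := by
          intro x hx
          rcases mem_insert.1 (hsub (mem_insert_of_mem hx)) with h | h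
          · exact absurd (h ▸ hx) hpT
          · exact h
        refine Subset.antisymm hTT' ?_
        rcases hF T' hTF' (insert p T) (hiU ▸ hU.1) with h | h | h
        · intro x hx
          rcases mem_insert.1 (h hx) with h' | h'
          · exact absurd (h' ▸ hx) hpT'
          · exact h'
        · exact absurd (h (mem_insert_self p T)) hpT'
        · obtain ⟨x, hx⟩ := hne T hTF
          exact absurd (mem_insert_of_mem hx) (disjoint_left.1 h (hTT' hx))
      intro T hT T' hT'
      have hT0 := hT
      have hT0' := hT'
      rw [mem_inter, hG1, mem_image] at hT hT'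
      obtain ⟨_, U, hU, hUT⟩ := hT
      obtain ⟨_, U', hU', hUT'⟩ := hT'
      rw [hF1, mem_filter, not_not] at hU hU'
      have hiU : insert p T = U := by rw [← hUT]; exact insert_erase hU.2
      have hiU' : insert p T' = U' := by rw [← hUT']; exact insert_erase hU'.2
      rcases hF U hU.1 U' hU'.1 with h | h | h
      · exact key T hT0 T' hT0' (by rw [hiU, hiU']; exact h)
      · exact (key T' hT0' T hT0 (by rw [hiU, hiU']; exact h)).symm
      · exact absurd hU'.2 (disjoint_left.1 h hU.2)
    have h8 : F0 ∪ G1.erase ∅ ⊆ F' := by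
      intro S hS
      rw [hF', mem_erase, mem_image]
      rcases mem_union.1 hS with h | h
      · rw [hF0, mem_filter] at h
        refine ⟨(nonempty_iff_ne_empty.1 (hne S h.1)), S, h.1, erase_eq_of_notMem h.2⟩
      · rw [mem_erase, hG1, mem_image] at h
        obtain ⟨h0, U, hU, rfl⟩ := h
        rw [hF1, mem_filter] at hU
        exact ⟨h0, U, hU.1, rfl⟩
    have h9 : F0.card + G1.card ≤ F'.card + 2 := by
      have e1 := card_union_add_card_inter F0 (G1.erase ∅)
      have e2 := card_le_card h8
      have e3 : (F0 ∩ G1.erase ∅).card ≤ (F0 ∩ G1).card :=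
        card_le_card (inter_subset_inter_left (erase_subset _ _))
      have e4 := pred_card_le_card_erase (s := G1) (a := ∅)
      omega
    rw [card_insert_of_notMem hp]
    omega

end laminar

variable {N : ℕ}

theorem exists_maximal (G : GaussWord N) : ∃ (m : ℕ) (u v : Fin m → Fin N), IsMatching G u v ∧
    ∀ i j, (∀ k, u k ≠ i ∧ v k ≠ i) → (∀ k, u k ≠ j ∧ v k ≠ j) → ¬ Crosses G i j := by
  classical
  let P : ℕ → Prop := fun m => ∃ u v : Fin m → Fin N, IsMatching G u v
  have hb : ∀ m, P m → m ≤ N := by
    rintro m ⟨u, v, hu, _⟩
    simpa using Fintype.card_le_of_injective u hu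
  have h0 : P 0 := ⟨Fin.elim0, Fin.elim0, fun a => a.elim0, fun a => a.elim0,
    fun a => a.elim0, fun a => a.elim0⟩
  set m := Nat.findGreatest P N with hm
  have hPm : P m := Nat.findGreatest_spec (Nat.zero_le N) h0
  obtain ⟨u, v, huv⟩ := hPm
  refine ⟨m, u, v, huv, ?_⟩
  intro i j hi hj hij
  have hne : i ≠ j := by
    rintro rfl
    exact not_crosses_self G i hij
  obtain ⟨hu, hv, hd, hc⟩ := huv
  have h1 : P (m + 1) := by
    refine ⟨Fin.cons i u, Fin.cons j v, ?_, ?_, ?_, ?_⟩
    · rw [Fin.cons_injective_iff]
      refine ⟨?_, hu⟩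
      rintro ⟨k, hk⟩
      exact (hi k).1 hk
    · rw [Fin.cons_injective_iff]
      refine ⟨?_, hv⟩
      rintro ⟨k, hk⟩
      exact (hj k).2 hk
    · intro k l
      refine Fin.cases ?_ (fun k => ?_) k <;> refine Fin.cases ?_ (fun l => ?_) l
      · simpa using hne
      · simpa using (hi l).2.symm
      · simpa using (hj k).1
      · simpa using hd k l
    · intro k
      refine Fin.cases ?_ (fun k => ?_) k
      · simpa using hij
      · simpa using hc k
  have h2 := Nat.le_findGreatest (hb _ h1) h1
  omega

open Classical in
/-- the number of classes of chords is at most ten times the size of a maximal matching -/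
theorem classes_le (G : GaussWord N) {m : ℕ} (u v : Fin m → Fin N)
    (hmax : ∀ i j, (∀ k, u k ≠ i ∧ v k ≠ i) → (∀ k, u k ≠ j ∧ v k ≠ j) → ¬ Crosses G i j) :
    classes G ≤ 10 * m := by
  set C : Finset (Fin N) := univ.image u ∪ univ.image v with hC
  have hCc : C.card ≤ 2 * m := by
    calc C.card ≤ (univ.image u).card + (univ.image v).card := card_union_le _ _
      _ ≤ m + m := by
        gcongr
        · exact card_image_le.trans (by simp)
        · exact card_image_le.trans (by simp)
      _ = 2 * m := by ring
  have hnC : ∀ i, i ∉ C → ∀ k, u k ≠ i ∧ v k ≠ i := by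
    intro i hi k
    rw [hC, mem_union, mem_image, mem_image, not_or] at hi
    exact ⟨fun h => hi.1 ⟨k, mem_univ _, h⟩, fun h => hi.2 ⟨k, mem_univ _, h⟩⟩
  have hindep : ∀ i ∉ C, ∀ j ∉ C, ¬ Crosses G i j := fun i hi j hj =>
    hmax i j (hnC i hi) (hnC j hj)
  set nb : Fin N → Finset (Fin N) := fun i => univ.filter fun j => Crosses G i j with hnb
  set S : Fin N → Finset (Fin N × Bool) := fun i =>
    (C ×ˢ univ).filter fun x => Btw (G (i, false)) (G (i, true)) (G x) with hS
  set h : Finset (Fin N × Bool) → Finset (Fin N) := fun X =>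
    univ.filter fun j => ¬ ((j, false) ∈ X ↔ (j, true) ∈ X) with hh
  have hnbS : ∀ i ∉ C, nb i = h (S i) := by
    intro i hi
    ext j
    simp only [hnb, hh, hS, mem_filter, mem_univ, true_and, mem_product, and_true]
    by_cases hj : j ∈ C
    · simp only [hj, true_and]
      rfl
    · simp only [hj, false_and, iff_self, not_true_eq_false, iff_false]
      exact hindep i hi j hj
  set F : Finset (Finset (Fin N × Bool)) := ((univ.filter fun i => i ∉ C).image S).erase ∅ with hF
  have hFc : F.card ≤ 2 * (C ×ˢ (univ : Finset Bool)).card := by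
    refine laminar_card _ F ?_ ?_ ?_
    · intro X hX Y hY
      rw [hF, mem_erase, mem_image] at hX hY
      obtain ⟨_, i, hi, rfl⟩ := hX
      obtain ⟨_, j, hj, rfl⟩ := hY
      rw [mem_filter] at hi hj
      by_cases hij : i = j
      · subst hij; exact Or.inl Subset.rfl
      have c1 := hindep i hi.2 j hj.2
      have c2 := hindep j hj.2 i hi.2
      have h1 := pos_ne G (x := (i, false)) (y := (j, false)) (by simp [hij])
      have h2 := pos_ne G (x := (i, false)) (y := (j, true)) (by simp [hij])
      have h3 := pos_ne G (x := (i, true)) (y := (j, false)) (by simp [hij])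
      have h4 := pos_ne G (x := (i, true)) (y := (j, true)) (by simp [hij])
      unfold Crosses at c1 c2
      rw [not_not] at c1 c2
      by_cases b1 : Btw (G (i, false)) (G (i, true)) (G (j, false))
      · right; left
        have b2 := c1.1 b1
        intro x hx
        simp only [hS, mem_filter] at hx ⊢
        refine ⟨hx.1, ?_⟩
        have hx2 := hx.2
        unfold Btw at b1 b2 hx2 ⊢
        omega
      · by_cases b3 : Btw (G (j, false)) (G (j, true)) (G (i, false))
        · left
          have b4 := c2.1 b3
          intro x hx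
          simp only [hS, mem_filter] at hx ⊢
          refine ⟨hx.1, ?_⟩
          have hx2 := hx.2
          unfold Btw at b3 b4 hx2 ⊢
          omega
        · right; right
          rw [disjoint_left]
          intro x hx hy
          simp only [hS, mem_filter] at hx hy
          have hx2 := hx.2
          have hy2 := hy.2
          have b2 := (not_congr c1).1 b1
          have b4 := (not_congr c2).1 b3
          unfold Btw at b1 b2 b3 b4 hx2 hy2
          omega
    · intro X hX
      rw [hF, mem_erase, mem_image] at hX
      obtain ⟨_, i, hi, rfl⟩ := hX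
      exact filter_subset _ _
    · intro X hX
      rw [hF, mem_erase] at hX
      exact nonempty_iff_ne_empty.2 hX.1
  have hsub : (univ.image nb).erase ∅ ⊆ C.image nb ∪ F.image h := by
    intro X hX
    rw [mem_erase, mem_image] at hX
    obtain ⟨h0, i, _, rfl⟩ := hX
    rw [mem_union]
    by_cases hi : i ∈ C
    · exact Or.inl (mem_image_of_mem nb hi)
    · right
      rw [hnbS i hi]
      refine mem_image_of_mem h ?_
      rw [hF, mem_erase]
      refine ⟨fun h1 => h0 ?_, mem_image_of_mem S (mem_filter.2 ⟨mem_univ _, hi⟩)⟩
      rw [hnbS i hi, h1, hh]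
      simp
  have hcl : classes G = ((univ.image nb).erase ∅).card := rfl
  rw [hcl]
  calc ((univ.image nb).erase ∅).card ≤ (C.image nb ∪ F.image h).card := card_le_card hsub
    _ ≤ (C.image nb).card + (F.image h).card := card_union_le _ _
    _ ≤ C.card + F.card := by gcongr <;> exact card_image_le
    _ ≤ 2 * m + 2 * (C ×ˢ (univ : Finset Bool)).card := by gcongr
    _ = 2 * m + 4 * C.card := by
        rw [card_product, card_univ, Fintype.card_bool]; ring
    _ ≤ 10 * m := by omega

end Pool.Agent.H832R2.JR
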