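import Pool.Agent.H832R2.JR.LO

set_option autoImplicit false

namespace Pool.Agent.H832R2.JR

open Finset Function

variable {N : ℕ} {ι : Type} [Fintype ι] [DecidableEq ι]

/-- the quadratic form `∑ A i j w_i w_j` -/
def Q (A : Fin N → Fin N → ℤ) (w : Fin N → Bool) : ℤ :=
  ∑ i, ∑ j, A i j * (sgn (w i) * sgn (w j))

open Classical in
/-- the coefficients of the decoupled linear form -/
noncomputable def coef (A : Fin N → Fin N → ℤ) (u : ι → Fin N) (y y' : Fin N → Bool) (k : ι) : ℤ :=
  ∑ j, if ∃ l, u l = j then 0 else A (u k) j * (sgn (y j) - sgn (y' j))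

theorem sum_extend (u : ι → Fin N) (hu : Injective u) (g : (Fin N → Bool) → ℝ) :
    ∑ x : ι → Bool, ∑ y : Fin N → Bool, g (extend u x y) =
      2 ^ Fintype.card ι * ∑ w : Fin N → Bool, g w := by
  rw [← Fintype.sum_prod_type' (f := fun x y => g (extend u x y))]
  have e : ∑ p : (ι → Bool) × (Fin N → Bool), g (extend u p.1 p.2) =
      ∑ p : (ι → Bool) × (Fin N → Bool), g p.2 := by
    refine Fintype.sum_equiv (Function.Involutive.toPerm
      (fun p : (ι → Bool) × (Fin N → Bool) => (p.2 ∘ u, extend u p.1 p.2)) ?_) _ _ ?_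
    · rintro ⟨x, y⟩
      simp only [Prod.mk.injEq]
      constructor
      · funext k
        simp [hu.extend_apply]
      · funext i
        by_cases hi : ∃ k, u k = i
        · obtain ⟨k, rfl⟩ := hi
          rw [hu.extend_apply]; rfl
        · rw [extend_apply' _ _ _ hi, extend_apply' _ _ _ hi]
    · rintro ⟨x, y⟩
      rfl
  rw [e, Fintype.sum_prod_type]
  simp

theorem Q_diff (A : Fin N → Fin N → ℤ) (hA : ∀ i j, A i j = A j i) (u : ι → Fin N)
    (hu : Injective u) (y y' : Fin N → Bool) :
    ∃ b : ℤ, ∀ x : ι → Bool,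
      Q A (extend u x y) - Q A (extend u x y') = 2 * ∑ k, sgn (x k) * coef A u y y' k + b := by
  classical
  let η : (Fin N → Bool) → Fin N → ℤ := fun y j => if ∃ l, u l = j then 0 else sgn (y j)
  let ξ : (ι → Bool) → Fin N → ℤ := fun x i => ∑ k, if u k = i then sgn (x k) else 0
  have hsplit : ∀ x y i, sgn (extend u x y i) = ξ x i + η y i := by
    intro x y i
    simp only [ξ, η]
    by_cases hi : ∃ k, u k = i
    · obtain ⟨k, rfl⟩ := hi
      rw [hu.extend_apply, if_pos ⟨k, rfl⟩, add_zero]
      rw [sum_eq_single k]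
      · simp
      · intro l _ hl
        rw [if_neg (fun h => hl (hu h))]
      · intro h; exact absurd (mem_univ k) h
    · rw [extend_apply' _ _ _ hi, if_neg hi, sum_eq_zero, zero_add]
      intro k _
      rw [if_neg (fun h => hi ⟨k, h⟩)]
  have hξ : ∀ (x : ι → Bool) (g : Fin N → ℤ), ∑ i, ξ x i * g i = ∑ k, sgn (x k) * g (u k) := by
    intro x g
    simp only [ξ, sum_mul]
    rw [sum_comm]
    refine sum_congr rfl fun k _ => ?_
    simp [ite_mul]
  have hQ : ∀ x y, Q A (extend u x y) = ∑ i, ∑ j, A i j * (ξ x i * ξ x j) +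
      2 * ∑ i, ξ x i * ∑ j, A i j * η y j + ∑ i, ∑ j, A i j * (η y i * η y j) := by
    intro x y
    have h1 : ∑ i, ∑ j, A i j * (η y i * ξ x j) = ∑ i, ∑ j, A i j * (ξ x i * η y j) := by
      rw [sum_comm]
      refine sum_congr rfl fun i _ => sum_congr rfl fun j _ => ?_
      rw [hA j i]; ring
    have h2 : ∑ i, ξ x i * ∑ j, A i j * η y j = ∑ i, ∑ j, A i j * (ξ x i * η y j) := by
      refine sum_congr rfl fun i _ => ?_
      rw [mul_sum]
      exact sum_congr rfl fun j _ => by ring
    unfold Q
    rw [h2, two_mul]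
    nth_rewrite 2 [← h1]
    rw [← sum_add_distrib, ← sum_add_distrib, ← sum_add_distrib]
    refine sum_congr rfl fun i _ => ?_
    rw [← sum_add_distrib, ← sum_add_distrib, ← sum_add_distrib]
    refine sum_congr rfl fun j _ => ?_
    rw [hsplit, hsplit]; ring
  refine ⟨∑ i, ∑ j, A i j * (η y i * η y j) - ∑ i, ∑ j, A i j * (η y' i * η y' j), fun x => ?_⟩
  have hc : ∑ k, sgn (x k) * coef A u y y' k =
      ∑ i, ξ x i * ∑ j, A i j * η y j - ∑ i, ξ x i * ∑ j, A i j * η y' j := by
    rw [hξ, hξ, ← sum_sub_distrib]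
    refine sum_congr rfl fun k _ => ?_
    rw [← mul_sub, ← sum_sub_distrib]
    congr 1
    unfold coef
    refine sum_congr rfl fun j _ => ?_
    simp only [η]
    split_ifs <;> ring
  rw [hQ, hQ, hc]
  ring

theorem decouple (A : Fin N → Fin N → ℤ) (u : ι → Fin N)
    (hu : Injective u) (c : ℤ) :
    ((univ.filter fun w => Q A w = c).card : ℝ) ^ 2 * 2 ^ Fintype.card ι ≤
      ∑ y : Fin N → Bool, ∑ y' : Fin N → Bool,
        ((univ.filter fun x : ι → Bool => Q A (extend u x y) = Q A (extend u x y')).card : ℝ) := by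
  classical
  set f : (Fin N → Bool) → ℝ := fun w => if Q A w = c then 1 else 0 with hf
  have h1 : ((univ.filter fun w => Q A w = c).card : ℝ) = ∑ w, f w := by
    simp [hf]
  have h2 := sum_extend u hu f
  have h3 : (∑ x : ι → Bool, ∑ y : Fin N → Bool, f (extend u x y)) ^ 2 ≤
      2 ^ Fintype.card ι * ∑ x : ι → Bool, (∑ y : Fin N → Bool, f (extend u x y)) ^ 2 := by
    have := sq_sum_le_card_mul_sum_sq (s := (univ : Finset (ι → Bool)))
      (f := fun x => ∑ y : Fin N → Bool, f (extend u x y))
    simpa using this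
  have h4 : ∀ x : ι → Bool, (∑ y : Fin N → Bool, f (extend u x y)) ^ 2 ≤
      ∑ y : Fin N → Bool, ∑ y' : Fin N → Bool,
        (if Q A (extend u x y) = Q A (extend u x y') then (1 : ℝ) else 0) := by
    intro x
    rw [sq, sum_mul_sum]
    refine sum_le_sum fun y _ => sum_le_sum fun y' _ => ?_
    simp only [hf]
    split_ifs with a1 a2 a3 <;> simp_all
  have h5 : ∑ x : ι → Bool, (∑ y : Fin N → Bool, f (extend u x y)) ^ 2 ≤
      ∑ y : Fin N → Bool, ∑ y' : Fin N → Bool,
        ((univ.filter fun x : ι → Bool => Q A (extend u x y) = Q A (extend u x y')).card : ℝ) := by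
    refine (sum_le_sum fun x _ => h4 x).trans (le_of_eq ?_)
    rw [sum_comm]
    refine sum_congr rfl fun y _ => ?_
    rw [sum_comm]
    refine sum_congr rfl fun y' _ => ?_
    simp
  rw [h2, mul_pow, sq (2 ^ Fintype.card ι : ℝ), mul_assoc] at h3
  have h6 := le_of_mul_le_mul_left h3 (by positivity)
  rw [h1]
  calc _ = 2 ^ Fintype.card ι * (∑ w, f w) ^ 2 := by ring
    _ ≤ _ := h6
    _ ≤ _ := h5

/-- decoupling combined with the linear Littlewood–Offord inequality -/
theorem decouple_LO (A : Fin N → Fin N → ℤ) (hA : ∀ i j, A i j = A j i) (u : ι → Fin N)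
    (hu : Injective u) (c : ℤ) (s : ℕ) (hs : 0 < s) :
    ((univ.filter fun w => Q A w = c).card : ℝ) ^ 2 ≤ 4 ^ N / √(s : ℝ) +
      ((univ.filter fun p : (Fin N → Bool) × (Fin N → Bool) =>
        (univ.filter fun k => coef A u p.1 p.2 k ≠ 0).card < s).card : ℝ) := by
  classical
  have h1 := decouple A u hu c
  have hs' : 0 < √(s : ℝ) := Real.sqrt_pos.2 (by exact_mod_cast hs)
  have h2 : ∀ y y' : Fin N → Bool,
      ((univ.filter fun x : ι → Bool => Q A (extend u x y) = Q A (extend u x y')).card : ℝ) ≤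
      2 ^ Fintype.card ι * (1 / √(s : ℝ) +
        (if (univ.filter fun k => coef A u y y' k ≠ 0).card < s then 1 else 0)) := by
    intro y y'
    obtain ⟨b, hb⟩ := Q_diff A hA u hu y y'
    have hpow : (0 : ℝ) < 2 ^ Fintype.card ι := by positivity
    split_ifs with h
    · have h3 : ((univ.filter fun x : ι → Bool =>
          Q A (extend u x y) = Q A (extend u x y')).card : ℝ) ≤ 2 ^ Fintype.card ι := by
        have := card_le_univ (univ.filter fun x : ι → Bool =>
          Q A (extend u x y) = Q A (extend u x y'))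
        rw [Fintype.card_fun, Fintype.card_bool] at this
        exact_mod_cast this
      have h4 : 0 < 1 / √(s : ℝ) := by positivity
      nlinarith
    · rw [add_zero, mul_one_div, le_div_iff₀ hs']
      rw [not_lt] at h
      have h3 : (univ.filter fun x : ι → Bool => Q A (extend u x y) = Q A (extend u x y')).card ≤
          (univ.filter fun x : ι → Bool => ∑ k, sgn (x k) * (2 * coef A u y y' k) = -b).card := by
        refine card_le_card fun x hx => ?_
        rw [mem_filter] at hx ⊢
        refine ⟨hx.1, ?_⟩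
        have h5 := hb x
        rw [hx.2, sub_self] at h5
        have h6 : ∑ k, sgn (x k) * (2 * coef A u y y' k) = 2 * ∑ k, sgn (x k) * coef A u y y' k := by
          rw [mul_sum]; exact sum_congr rfl fun k _ => by ring
        rw [h6]; linarith
      have h4 := LO (fun k => 2 * coef A u y y' k) (-b)
      have h5 : (univ.filter fun k => 2 * coef A u y y' k ≠ 0) =
          univ.filter fun k => coef A u y y' k ≠ 0 := by
        ext k; simp
      rw [h5] at h4
      refine le_trans ?_ h4
      gcongr
  have h3 : ∑ y : Fin N → Bool, ∑ y' : Fin N → Bool,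
      ((univ.filter fun x : ι → Bool => Q A (extend u x y) = Q A (extend u x y')).card : ℝ) ≤
      2 ^ Fintype.card ι * (4 ^ N / √(s : ℝ) +
      ((univ.filter fun p : (Fin N → Bool) × (Fin N → Bool) =>
        (univ.filter fun k => coef A u p.1 p.2 k ≠ 0).card < s).card : ℝ)) := by
    refine (sum_le_sum fun y _ => sum_le_sum fun y' _ => h2 y y').trans (le_of_eq ?_)
    rw [← Fintype.sum_prod_type' (f := fun y y' => 2 ^ Fintype.card ι * (1 / √(s : ℝ) +
        (if (univ.filter fun k => coef A u y y' k ≠ 0).card < s then (1 : ℝ) else 0))), ← mul_sum,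
      sum_add_distrib]
    congr 2
    · simp only [sum_const, card_univ, Fintype.card_prod, Fintype.card_fun, Fintype.card_bool,
        Fintype.card_fin, nsmul_eq_mul]
      push_cast
      rw [← mul_pow]
      norm_num
      rfl
    · simp
  have h4 := h1.trans h3
  rw [mul_comm] at h4
  exact le_of_mul_le_mul_left h4 (by positivity)

end Pool.Agent.H832R2.JR
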