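import Mathlib

set_option autoImplicit false

/-!
# Knot diagrams up to the choice of the crossings, and the normalised Kauffman bracket

A knot diagram with `N` crossings is described in the following way.  Number the crossings and
travel once along the (oriented) knot.  Every crossing is passed twice; `(c, false)` and
`(c, true)` denote the two passages of the crossing `c`.  The *Gauss word*
`G : Fin N × Bool ≃ Fin (2 * N)` gives for every passage its place in the sequence of all `2 N`
passages.  This is the information contained in the shadow of the diagram (the oriented closed
curve with `N` double points).  The signs of the crossings are given by `w : Fin N → Bool`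
(`true`: positive, `false`: negative).  On a given shadow the two possible choices at a crossing
(which strand is the overstrand) give the two different signs, so that the `2 ^ N` functions `w`
describe all `2 ^ N` choices of the crossings.

At every crossing there are two smoothings: the oriented one and the unoriented one.  The oriented
smoothing is the smoothing of type `A` exactly if the crossing is positive.  Hence the Kauffman
bracket and the `f`-polynomial depend only on `G` and `w`.
-/

namespace Pool.Agent.H832R2.JR

open Finset LaurentPolynomial

/-- the sign `±1` of a Boolean -/
def sgn (b : Bool) : ℤ := if b then 1 else -1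

/-- Gauss words with `N` letters: `G (c, b)` is the place of the passage `(c, b)` in the sequence
of the `2 N` passages of crossings that one meets when one travels once along the knot. -/
abbrev GaussWord (N : ℕ) : Type := Fin N × Bool ≃ Fin (2 * N)

/-- The `4 N` half edges at the crossings: `((c, b), false)` is the end of the strand which enters
the crossing `c` at its passage `(c, b)`, and `((c, b), true)` is the beginning of the strand which
leaves it. -/
abbrev Half (N : ℕ) : Type := (Fin N × Bool) × Bool

variable {N : ℕ}

/-- the passage following a given passage when one travels along the knot -/
def next (G : GaussWord N) : Equiv.Perm (Fin N × Bool) :=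
  (G.trans (finRotate (2 * N))).trans G.symm

/-- Two half edges are joined in the state `s` (`s c = true`: the crossing `c` is smoothed in the
oriented way, `s c = false`: it is smoothed in the unoriented way): the beginning of a strand
leaving a crossing is joined with its end, which enters the next crossing; an oriented smoothing
joins the strand entering at one passage with the strand leaving at the other one; an unoriented
smoothing joins the two entering strands and the two leaving strands. -/
def Joined (G : GaussWord N) (s : Fin N → Bool) (x y : Half N) : Prop :=
  (∃ p, x = (p, true) ∧ y = (next G p, false)) ∨
  (∃ c b, s c = true ∧ x = ((c, b), false) ∧ y = ((c, !b), true)) ∨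
  (∃ c e, s c = false ∧ x = ((c, false), e) ∧ y = ((c, true), e))

/-- the number of closed curves of the state `s` -/
noncomputable def loops (G : GaussWord N) (s : Fin N → Bool) : ℕ := Nat.card (Quot (Joined G s))

/-- the number of smoothings of type `A` minus the number of smoothings of type `B` in the state
`s` of the diagram with crossing signs `w` -/
def weight (w s : Fin N → Bool) : ℤ := ∑ c, sgn (w c) * sgn (s c)

/-- the Kauffman bracket (a Laurent polynomial in `A = T 1`) -/
noncomputable def bracket (G : GaussWord N) (w : Fin N → Bool) : ℤ[T;T⁻¹] :=
  ∑ s : Fin N → Bool, T (weight w s) * (-T 2 - T (-2)) ^ (loops G s - 1)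

/-- the writhe -/
def writhe (w : Fin N → Bool) : ℤ := ∑ c, sgn (w c)

/-- the normalised Kauffman bracket `f = (-A^{-3})^{writhe} ⟨G, w⟩` -/
noncomputable def fPoly (G : GaussWord N) (w : Fin N → Bool) : ℤ[T;T⁻¹] :=
  (if Even (writhe w) then 1 else -1) * T (-3 * writhe w) * bracket G w

/-- `x` lies strictly between `a` and `b` -/
def Btw (a b x : ℕ) : Prop := (a < x ∧ x < b) ∨ (b < x ∧ x < a)

/-- the chords of the crossings `i` and `j` cross: exactly one of the two passages of `j` lies
between the two passages of `i` -/
def Crosses (G : GaussWord N) (i j : Fin N) : Prop :=
  ¬ (Btw (G (i, false)) (G (i, true)) (G (j, false)) ↔ Btw (G (i, false)) (G (i, true)) (G (j, true)))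

/-- `m` pairwise disjoint pairs `{u k, v k}` of crossing chords -/
def IsMatching (G : GaussWord N) {m : ℕ} (u v : Fin m → Fin N) : Prop :=
  Function.Injective u ∧ Function.Injective v ∧ (∀ k l, u k ≠ v l) ∧ ∀ k, Crosses G (u k) (v k)

open Classical in
/-- The number of classes of non-isolated chords, two chords being in the same class if they cross
the same chords: the number of different nonempty sets `{j | Crosses G i j}`. -/
noncomputable def classes (G : GaussWord N) : ℕ :=
  ((univ.image fun i => univ.filter fun j => Crosses G i j).erase ∅).card

end Pool.Agent.H832R2.JR
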