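import Pool.Agent.H832R2.JR.Decouple

set_option autoImplicit false

namespace Pool.Agent.H832R2.JR

open Finset Function

variable {N : ℕ} {ι : Type} [Fintype ι] [DecidableEq ι]

theorem two_pow_fin (N : ℕ) : (Fintype.card (Fin N → Bool) : ℝ) = 2 ^ N := by
  rw [Fintype.card_fun, Fintype.card_bool, Fintype.card_fin]; norm_num

open Classical in
/-- one coefficient is rarely zero if the row has many nonzero entries -/
theorem row_zero (A : Fin N → Fin N → ℤ) (u : ι → Fin N) (k : ι) (D : ℕ) (hD : 0 < D)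
    (hk : D ≤ (univ.filter fun j => (¬ ∃ l, u l = j) ∧ A (u k) j ≠ 0).card) :
    ((univ.filter fun p : (Fin N → Bool) × (Fin N → Bool) =>
      coef A u p.1 p.2 k = 0).card : ℝ) ≤ 4 ^ N / √(D : ℝ) := by
  have hD' : 0 < √(D : ℝ) := Real.sqrt_pos.2 (by exact_mod_cast hD)
  set a : Fin N → ℤ := fun j => if ∃ l, u l = j then 0 else A (u k) j with ha
  have hcoef : ∀ y y', coef A u y y' k = ∑ j, sgn (y j) * a j - ∑ j, sgn (y' j) * a j := by
    intro y y'
    rw [← sum_sub_distrib]
    unfold coef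
    refine sum_congr rfl fun j _ => ?_
    simp only [ha]
    split_ifs <;> ring
  have hcard : D ≤ (univ.filter fun j => a j ≠ 0).card := by
    refine hk.trans (card_le_card fun j hj => ?_)
    rw [mem_filter] at hj ⊢
    refine ⟨hj.1, ?_⟩
    simp only [ha]
    rw [if_neg hj.2.1]
    exact hj.2.2
  have h1 : ∀ y' : Fin N → Bool, ((univ.filter fun y : Fin N → Bool =>
      coef A u y y' k = 0).card : ℝ) ≤ 2 ^ N / √(D : ℝ) := by
    intro y'
    rw [le_div_iff₀ hD']
    have h2 := LO a (∑ j, sgn (y' j) * a j)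
    rw [Fintype.card_fin] at h2
    have h3 : (univ.filter fun y : Fin N → Bool => coef A u y y' k = 0) =
        univ.filter fun y : Fin N → Bool => ∑ j, sgn (y j) * a j = ∑ j, sgn (y' j) * a j := by
      ext y
      simp only [mem_filter, mem_univ, true_and, hcoef, sub_eq_zero]
    rw [h3]
    refine le_trans ?_ h2
    gcongr
  have h4 : ((univ.filter fun p : (Fin N → Bool) × (Fin N → Bool) =>
      coef A u p.1 p.2 k = 0).card : ℝ) = ∑ y' : Fin N → Bool,
        ((univ.filter fun y : Fin N → Bool => coef A u y y' k = 0).card : ℝ) := by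
    have h5 : ∀ y' : Fin N → Bool, ((univ.filter fun y : Fin N → Bool =>
        coef A u y y' k = 0).card : ℝ) = ∑ y : Fin N → Bool,
          (if coef A u y y' k = 0 then (1 : ℝ) else 0) := by
      intro y'; simp
    rw [sum_congr rfl (fun y' _ => h5 y'), sum_comm,
      ← Fintype.sum_prod_type' (f := fun y y' => (if coef A u y y' k = 0 then (1 : ℝ) else 0))]
    simp
  rw [h4]
  refine (sum_le_sum fun y' _ => h1 y').trans (le_of_eq ?_)
  rw [sum_const, card_univ, nsmul_eq_mul, two_pow_fin]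
  rw [← mul_div_assoc, ← mul_pow]
  norm_num

open Classical in
/-- the case of rows with many nonzero entries -/
theorem hi_case (A : Fin N → Fin N → ℤ) (hA : ∀ i j, A i j = A j i) (u : ι → Fin N)
    (hu : Injective u) (c : ℤ) (D s : ℕ) (hD : 0 < D) (hs : 0 < s) (hs2 : 2 * s ≤ Fintype.card ι)
    (hk : ∀ k, D ≤ (univ.filter fun j => (¬ ∃ l, u l = j) ∧ A (u k) j ≠ 0).card) :
    ((univ.filter fun w => Q A w = c).card : ℝ) ^ 2 ≤ 4 ^ N * (1 / √(s : ℝ) + 2 / √(D : ℝ)) := by
  have h1 := decouple_LO A hA u hu c s hs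
  set P := univ.filter fun p : (Fin N → Bool) × (Fin N → Bool) =>
        (univ.filter fun k => coef A u p.1 p.2 k ≠ 0).card < s with hP
  have hcount : (P.card : ℝ) * (Fintype.card ι) ≤
      2 * ∑ k : ι, ((univ.filter fun p : (Fin N → Bool) × (Fin N → Bool) =>
        coef A u p.1 p.2 k = 0).card : ℝ) := by
    have e1 : ∑ k : ι, ((univ.filter fun p : (Fin N → Bool) × (Fin N → Bool) =>
        coef A u p.1 p.2 k = 0).card : ℝ) = ∑ p : (Fin N → Bool) × (Fin N → Bool),
          ((univ.filter fun k => coef A u p.1 p.2 k = 0).card : ℝ) := by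
      have e2 : ∀ k : ι, ((univ.filter fun p : (Fin N → Bool) × (Fin N → Bool) =>
        coef A u p.1 p.2 k = 0).card : ℝ) = ∑ p : (Fin N → Bool) × (Fin N → Bool),
          (if coef A u p.1 p.2 k = 0 then (1 : ℝ) else 0) := by
        intro k; simp
      rw [sum_congr rfl (fun k _ => e2 k), sum_comm]
      refine sum_congr rfl fun p _ => ?_
      simp
    rw [e1]
    calc (P.card : ℝ) * (Fintype.card ι) = ∑ p ∈ P, (Fintype.card ι : ℝ) := by
          rw [sum_const, nsmul_eq_mul]
      _ ≤ ∑ p ∈ P, 2 * ((univ.filter fun k => coef A u p.1 p.2 k = 0).card : ℝ) := by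
          refine sum_le_sum fun p hp => ?_
          rw [hP, mem_filter] at hp
          have e3 := card_filter_add_card_filter_not (s := (univ : Finset ι))
            (fun k => coef A u p.1 p.2 k = 0)
          rw [card_univ] at e3
          have e4 : Fintype.card ι ≤ 2 * (univ.filter fun k => coef A u p.1 p.2 k = 0).card := by
            have := hp.2
            simp only [ne_eq] at this
            omega
          exact_mod_cast e4
      _ = 2 * ∑ p ∈ P, ((univ.filter fun k => coef A u p.1 p.2 k = 0).card : ℝ) := by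
          rw [mul_sum]
      _ ≤ _ := by
          refine mul_le_mul_of_nonneg_left ?_ (by norm_num)
          exact sum_le_sum_of_subset_of_nonneg (subset_univ _) (fun _ _ _ => by positivity)
  have h2 : ∑ k : ι, ((univ.filter fun p : (Fin N → Bool) × (Fin N → Bool) =>
        coef A u p.1 p.2 k = 0).card : ℝ) ≤ (Fintype.card ι) * (4 ^ N / √(D : ℝ)) := by
    refine (sum_le_sum fun k _ => row_zero A u k D hD (hk k)).trans (le_of_eq ?_)
    rw [sum_const, card_univ, nsmul_eq_mul]
  have hpos : (0 : ℝ) < Fintype.card ι := by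
    have : 0 < Fintype.card ι := by omega
    exact_mod_cast this
  have h3 : (P.card : ℝ) ≤ 2 * (4 ^ N / √(D : ℝ)) := by
    have h4 : (Fintype.card ι : ℝ) * P.card ≤ (Fintype.card ι : ℝ) * (2 * (4 ^ N / √(D : ℝ))) := by
      linarith
    exact le_of_mul_le_mul_left h4 hpos
  calc _ ≤ 4 ^ N / √(s : ℝ) + (P.card : ℝ) := h1
    _ ≤ 4 ^ N / √(s : ℝ) + 2 * (4 ^ N / √(D : ℝ)) := by linarith
    _ = _ := by ring

theorem four_sum (α r : ℤ) (hα : α ≠ 0) :
    ∑ b : Bool, ∑ b' : Bool, (if α * (sgn b - sgn b') + r ≠ 0 then (1 / 2 : ℝ) else 1) ≤ 3 := by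
  simp only [Fintype.sum_bool, sgn, if_true, Bool.false_eq_true, if_false]
  have h1 : α * (1 - 1) + r = r := by ring
  have h2 : α * (-1 - -1) + r = r := by ring
  rw [h1, h2]
  by_cases hr : r = 0
  · subst hr
    have h3 : α * (1 - -1) + 0 ≠ 0 := by omega
    have h4 : α * (-1 - 1) + 0 ≠ 0 := by omega
    rw [if_neg (by simp), if_pos h3, if_pos h4]
    norm_num
  · rw [if_pos hr]
    split_ifs <;> norm_num

theorem prod_double (φ : ι → Bool → Bool → ℝ) :
    ∑ z : ι → Bool, ∑ z' : ι → Bool, ∏ k, φ k (z k) (z' k) =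
      ∏ k, ∑ b : Bool, ∑ b' : Bool, φ k b b' := by
  have h1 : ∀ z : ι → Bool, ∑ z' : ι → Bool, ∏ k, φ k (z k) (z' k) =
      ∏ k, ∑ b' : Bool, φ k (z k) b' := by
    intro z
    rw [Finset.prod_univ_sum, Fintype.piFinset_univ]
  rw [sum_congr rfl (fun z _ => h1 z), Finset.prod_univ_sum, Fintype.piFinset_univ]

open Classical in
/-- moment generating function of the number of nonzero coefficients in the case of a triangular
family of rows -/
theorem lo_mgf (A : Fin N → Fin N → ℤ) (u v : ι → Fin N) (hv : Injective v)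
    (huv : ∀ k l, u k ≠ v l) (hdiag : ∀ k, A (u k) (v k) ≠ 0)
    (hoff : ∀ k l, k ≠ l → A (u k) (v l) = 0) :
    ∑ y : Fin N → Bool, ∑ y' : Fin N → Bool,
      (1 / 2 : ℝ) ^ (univ.filter fun k => coef A u y y' k ≠ 0).card ≤
        4 ^ N * (3 / 4) ^ Fintype.card ι := by
  set g : (Fin N → Bool) → (Fin N → Bool) → ℝ := fun y y' =>
    (1 / 2 : ℝ) ^ (univ.filter fun k => coef A u y y' k ≠ 0).card with hg
  have hprod : ∀ y y', g y y' = ∏ k, (if coef A u y y' k ≠ 0 then (1 / 2 : ℝ) else 1) := by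
    intro y y'
    rw [hg, prod_ite]
    simp
  have h1 : ∀ y y' : Fin N → Bool, ∑ z : ι → Bool, ∑ z' : ι → Bool,
      g (extend v z y) (extend v z' y') ≤ 3 ^ Fintype.card ι := by
    intro y y'
    set r : ι → ℤ := fun k => ∑ j, if ∃ l, u l = j then 0 else
      if ∃ l, v l = j then 0 else A (u k) j * (sgn (y j) - sgn (y' j)) with hr
    have h2 : ∀ (z z' : ι → Bool) k, coef A u (extend v z y) (extend v z' y') k =
        A (u k) (v k) * (sgn (z k) - sgn (z' k)) + r k := by
      intro z z' k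
      unfold coef
      rw [hr]
      have h3 : A (u k) (v k) * (sgn (z k) - sgn (z' k)) = ∑ j, if j = v k then
          A (u k) (v k) * (sgn (z k) - sgn (z' k)) else 0 := by simp
      rw [h3, ← sum_add_distrib]
      refine sum_congr rfl fun j _ => ?_
      by_cases hj : ∃ l, u l = j
      · rw [if_pos hj, if_pos hj, if_neg, add_zero]
        rintro rfl
        obtain ⟨l, hl⟩ := hj
        exact huv l k hl
      · rw [if_neg hj, if_neg hj]
        by_cases hj2 : ∃ l, v l = j
        · obtain ⟨l, rfl⟩ := hj2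
          rw [hv.extend_apply, hv.extend_apply, if_pos (show ∃ l', v l' = v l from ⟨l, rfl⟩),
            add_zero]
          by_cases hlk : l = k
          · subst hlk; simp
          · rw [hoff k l (Ne.symm hlk), if_neg (fun h => hlk (hv h)), zero_mul]
        · rw [extend_apply' _ _ _ hj2, extend_apply' _ _ _ hj2, if_neg hj2, if_neg, zero_add]
          rintro rfl
          exact hj2 ⟨k, rfl⟩
    have h3 : ∀ z z' : ι → Bool, g (extend v z y) (extend v z' y') =
        ∏ k, (if A (u k) (v k) * (sgn (z k) - sgn (z' k)) + r k ≠ 0 then (1 / 2 : ℝ) else 1) := by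
      intro z z'
      rw [hprod]
      exact prod_congr rfl fun k _ => by rw [h2]
    rw [sum_congr rfl (fun z _ => sum_congr rfl (fun z' _ => h3 z z')), prod_double
      (fun k b b' => (if A (u k) (v k) * (sgn b - sgn b') + r k ≠ 0 then (1 / 2 : ℝ) else 1))]
    calc _ ≤ ∏ _k : ι, (3 : ℝ) := by
          refine prod_le_prod (fun k _ => ?_) (fun k _ => four_sum _ _ (hdiag k))
          exact sum_nonneg fun b _ => sum_nonneg fun b' _ => by split_ifs <;> norm_num
      _ = 3 ^ Fintype.card ι := by simp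
  have h4 : (2 ^ Fintype.card ι) * ((2 ^ Fintype.card ι) * ∑ y, ∑ y', g y y') =
      ∑ y : Fin N → Bool, ∑ y' : Fin N → Bool, ∑ z : ι → Bool, ∑ z' : ι → Bool,
        g (extend v z y) (extend v z' y') := by
    have e1 : ∀ y, (2 : ℝ) ^ Fintype.card ι * ∑ y', g y y' =
        ∑ z' : ι → Bool, ∑ y', g y (extend v z' y') := fun y => (sum_extend v hv (g y)).symm
    rw [mul_sum, sum_congr rfl (fun y _ => e1 y)]
    rw [← sum_extend v hv (fun y => ∑ z' : ι → Bool, ∑ y', g y (extend v z' y'))]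
    rw [sum_comm]
    refine sum_congr rfl fun y _ => ?_
    rw [sum_comm' (t' := univ) (s' := fun _ => univ) (by simp)]
    rw [sum_comm]
    refine Eq.trans ?_ (sum_comm)
    refine sum_congr rfl fun z _ => ?_
    exact sum_comm
  have h5 : ∑ y : Fin N → Bool, ∑ y' : Fin N → Bool, ∑ z : ι → Bool, ∑ z' : ι → Bool,
        g (extend v z y) (extend v z' y') ≤ 4 ^ N * 3 ^ Fintype.card ι := by
    refine (sum_le_sum fun y _ => sum_le_sum fun y' _ => h1 y y').trans (le_of_eq ?_)
    rw [sum_const, sum_const, card_univ, nsmul_eq_mul, nsmul_eq_mul, two_pow_fin, ← mul_assoc,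
      ← mul_pow]
    norm_num
  rw [← h4] at h5
  have h6 : (4 : ℝ) ^ Fintype.card ι * ∑ y, ∑ y', g y y' ≤
      4 ^ Fintype.card ι * (4 ^ N * (3 / 4) ^ Fintype.card ι) := by
    have e2 : (4 : ℝ) ^ Fintype.card ι = 2 ^ Fintype.card ι * 2 ^ Fintype.card ι := by
      rw [← mul_pow]; norm_num
    have e3 : (4 : ℝ) ^ Fintype.card ι * (4 ^ N * (3 / 4) ^ Fintype.card ι) =
        4 ^ N * 3 ^ Fintype.card ι := by
      rw [div_pow]; field_simp
    rw [e3, e2, mul_assoc]
    exact h5
  exact le_of_mul_le_mul_left h6 (by positivity)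

theorem pow_bound (n s : ℕ) (hs : 8 * s ≤ n) (hn : 0 < n) :
    (2 : ℝ) ^ s * (3 / 4) ^ n ≤ 2 / √(n : ℝ) := by
  have h1 : (2 : ℝ) ^ s * (3 / 4) ^ n ≤ (5 / 6) ^ n := by
    have h2 : ((2 : ℝ) ^ s * (3 / 4) ^ n) ^ 8 ≤ ((5 / 6) ^ n) ^ 8 := by
      calc ((2 : ℝ) ^ s * (3 / 4) ^ n) ^ 8 = 2 ^ (8 * s) * ((3 / 4) ^ 8) ^ n := by
            rw [mul_pow, ← pow_mul, ← pow_mul, ← pow_mul, mul_comm s 8, mul_comm n 8]
        _ ≤ 2 ^ n * ((3 / 4) ^ 8) ^ n := by
            gcongr
            · norm_num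
        _ = (2 * (3 / 4) ^ 8) ^ n := by rw [mul_pow]
        _ ≤ ((5 / 6) ^ 8) ^ n := by
            gcongr
            norm_num
        _ = _ := by rw [← pow_mul, ← pow_mul, mul_comm]
    exact le_of_pow_le_pow_left₀ (by norm_num) (by positivity) h2
  refine h1.trans ?_
  have hn' : (0 : ℝ) < n := by exact_mod_cast hn
  rw [le_div_iff₀ (Real.sqrt_pos.2 hn')]
  refine abs_le_of_sq_le_sq' ?_ (by norm_num) |>.2
  rw [mul_pow, Real.sq_sqrt hn'.le]
  have h3 : (1 : ℝ) + n * (11 / 25) ≤ (1 + 11 / 25) ^ n :=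
    one_add_mul_le_pow (by norm_num) n
  have h4 : (((5 : ℝ) / 6) ^ n) ^ 2 * (1 + 11 / 25) ^ n = 1 := by
    rw [← pow_mul, mul_comm n 2, pow_mul, ← mul_pow]
    norm_num
  have h5 : 0 < (((5 : ℝ) / 6) ^ n) ^ 2 := by positivity
  nlinarith

open Classical in
/-- the case of a triangular family of rows -/
theorem lo_case (A : Fin N → Fin N → ℤ) (hA : ∀ i j, A i j = A j i) (u v : ι → Fin N)
    (hu : Injective u) (hv : Injective v) (huv : ∀ k l, u k ≠ v l)
    (hdiag : ∀ k, A (u k) (v k) ≠ 0) (hoff : ∀ k l, k ≠ l → A (u k) (v l) = 0) (c : ℤ) (s : ℕ)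
    (hs : 0 < s) (hs8 : 8 * s ≤ Fintype.card ι) :
    ((univ.filter fun w => Q A w = c).card : ℝ) ^ 2 ≤
      4 ^ N * (1 / √(s : ℝ) + 2 / √(Fintype.card ι : ℝ)) := by
  have h1 := decouple_LO A hA u hu c s hs
  set P := univ.filter fun p : (Fin N → Bool) × (Fin N → Bool) =>
        (univ.filter fun k => coef A u p.1 p.2 k ≠ 0).card < s with hP
  have h2 := lo_mgf A u v hv huv hdiag hoff
  have h3 : (P.card : ℝ) * (1 / 2) ^ s ≤ ∑ y : Fin N → Bool, ∑ y' : Fin N → Bool,
      (1 / 2 : ℝ) ^ (univ.filter fun k => coef A u y y' k ≠ 0).card := by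
    rw [← Fintype.sum_prod_type' (f := fun y y' =>
      (1 / 2 : ℝ) ^ (univ.filter fun k => coef A u y y' k ≠ 0).card)]
    calc (P.card : ℝ) * (1 / 2) ^ s = ∑ p ∈ P, (1 / 2 : ℝ) ^ s := by
          rw [sum_const, nsmul_eq_mul]
      _ ≤ ∑ p ∈ P, (1 / 2 : ℝ) ^ (univ.filter fun k => coef A u p.1 p.2 k ≠ 0).card := by
          refine sum_le_sum fun p hp => ?_
          rw [hP, mem_filter] at hp
          exact pow_le_pow_of_le_one (by norm_num) (by norm_num) hp.2.le
      _ ≤ _ := sum_le_sum_of_subset_of_nonneg (subset_univ _) (fun _ _ _ => by positivity)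
  have h4 : (P.card : ℝ) ≤ 4 ^ N * (2 ^ s * (3 / 4) ^ Fintype.card ι) := by
    have h5 := h3.trans h2
    rw [one_div, inv_pow, ← div_eq_mul_inv, div_le_iff₀ (by positivity)] at h5
    linarith
  have h6 := pow_bound (Fintype.card ι) s hs8 (by omega)
  calc _ ≤ 4 ^ N / √(s : ℝ) + (P.card : ℝ) := h1
    _ ≤ 4 ^ N / √(s : ℝ) + 4 ^ N * (2 / √(Fintype.card ι : ℝ)) := by
        have : (4 : ℝ) ^ N * (2 ^ s * (3 / 4) ^ Fintype.card ι) ≤
          4 ^ N * (2 / √(Fintype.card ι : ℝ)) := by gcongr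
        linarith
    _ = _ := by ring

end Pool.Agent.H832R2.JR
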