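import Pool.Agent.H832R2.JR.Defs

set_option autoImplicit false

namespace Pool.Agent.H832R2.JR

open Finset

theorem central_sq (k : ℕ) : (Nat.centralBinom k) ^ 2 * (2 * k + 1) ≤ 16 ^ k := by
  induction k with
  | zero => simp
  | succ k ih =>
    have h := Nat.succ_mul_centralBinom_succ k
    have h2 : ((k + 1) * Nat.centralBinom (k + 1)) ^ 2 * (2 * k + 3) ≤
        (k + 1) ^ 2 * 16 ^ (k + 1) := by
      rw [h]
      calc (2 * (2 * k + 1) * Nat.centralBinom k) ^ 2 * (2 * k + 3)
          = (Nat.centralBinom k ^ 2 * (2 * k + 1)) * (4 * (2 * k + 1) * (2 * k + 3)) := by ring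
        _ ≤ 16 ^ k * (4 * (2 * k + 1) * (2 * k + 3)) := Nat.mul_le_mul_right _ ih
        _ ≤ 16 ^ k * (16 * (k + 1) ^ 2) := Nat.mul_le_mul_left _ (by nlinarith)
        _ = (k + 1) ^ 2 * 16 ^ (k + 1) := by ring
    have h3 : (k + 1) ^ 2 * (Nat.centralBinom (k + 1) ^ 2 * (2 * (k + 1) + 1)) ≤
        (k + 1) ^ 2 * 16 ^ (k + 1) := by
      calc (k + 1) ^ 2 * (Nat.centralBinom (k + 1) ^ 2 * (2 * (k + 1) + 1))
          = ((k + 1) * Nat.centralBinom (k + 1)) ^ 2 * (2 * k + 3) := by ring
        _ ≤ _ := h2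
    exact Nat.le_of_mul_le_mul_left h3 (by positivity)

theorem choose_half_sq (n : ℕ) : (n.choose (n / 2)) ^ 2 * n ≤ 4 ^ n := by
  rcases Nat.even_or_odd' n with ⟨k, rfl | rfl⟩
  · have h := central_sq k
    rw [Nat.centralBinom_eq_two_mul_choose] at h
    rw [Nat.mul_div_cancel_left k (by norm_num), pow_mul]
    calc (2 * k).choose k ^ 2 * (2 * k) ≤ (2 * k).choose k ^ 2 * (2 * k + 1) :=
          Nat.mul_le_mul_left _ (by omega)
      _ ≤ 16 ^ k := h
      _ = (4 ^ 2) ^ k := by norm_num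
  · have h := central_sq (k + 1)
    have h1 : (2 * k + 1) / 2 = k := by omega
    have h2 : Nat.centralBinom (k + 1) = 2 * (2 * k + 1).choose k := by
      rw [Nat.centralBinom_eq_two_mul_choose, show 2 * (k + 1) = (2 * k + 1) + 1 by ring,
        Nat.choose_succ_succ, show (2 * k + 1).choose (k + 1) = (2 * k + 1).choose k by
          rw [Nat.choose_symm_half]]
      ring
    rw [h2] at h
    rw [h1]
    have h4 : 4 * ((2 * k + 1).choose k ^ 2 * (2 * k + 1)) ≤ 4 * 4 ^ (2 * k + 1) := by
      calc 4 * ((2 * k + 1).choose k ^ 2 * (2 * k + 1))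
          ≤ (2 * (2 * k + 1).choose k) ^ 2 * (2 * (k + 1) + 1) := by
            rw [show (2 * (2 * k + 1).choose k) ^ 2 * (2 * (k + 1) + 1) =
              4 * ((2 * k + 1).choose k ^ 2 * (2 * k + 3)) by ring]
            exact Nat.mul_le_mul_left _ (Nat.mul_le_mul_left _ (by omega))
        _ ≤ 16 ^ (k + 1) := h
        _ = 4 * 4 ^ (2 * k + 1) := by
          rw [show (16 : ℕ) = 4 ^ 2 by norm_num, ← pow_mul, show 2 * (k + 1) = (2 * k + 1) + 1 by
            ring, pow_succ]
          ring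
    exact Nat.le_of_mul_le_mul_left h4 (by norm_num)

/-- **Erdős–Littlewood–Offord inequality** for integer coefficients, all of them nonzero. -/
theorem LO_nonzero {ι : Type} [Fintype ι] [DecidableEq ι] (a : ι → ℤ) (ha : ∀ k, a k ≠ 0)
    (b : ℤ) :
    (univ.filter fun x : ι → Bool => ∑ k, sgn (x k) * a k = b).card ≤
      (Fintype.card ι).choose (Fintype.card ι / 2) := by
  classical
  let A : (ι → Bool) → Finset ι := fun x => univ.filter fun k => x k = decide (0 < a k)
  have hA : Function.Injective A := by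
    intro x y h
    funext k
    have h1 : k ∈ A x ↔ k ∈ A y := by rw [h]
    simp only [A, mem_filter, mem_univ, true_and] at h1
    cases hx : x k <;> cases hy : y k <;> cases hd : decide (0 < a k) <;> simp_all
  have hsum : ∀ x, ∑ k, sgn (x k) * a k = ∑ k, (if k ∈ A x then |a k| else -|a k|) := by
    intro x
    refine sum_congr rfl fun k _ => ?_
    simp only [A, mem_filter, mem_univ, true_and]
    rcases lt_or_gt_of_ne (ha k) with h | h
    · have h1 : decide (0 < a k) = false := by simp; omega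
      rw [h1, abs_of_neg h]
      cases x k <;> simp [sgn]
    · have h1 : decide (0 < a k) = true := by simp; omega
      rw [h1, abs_of_pos h]
      cases x k <;> simp [sgn]
  have hmono : ∀ x y, A x ⊆ A y → A x ≠ A y → ∑ k, sgn (x k) * a k < ∑ k, sgn (y k) * a k := by
    intro x y hxy hne
    rw [hsum, hsum]
    obtain ⟨k, hk1, hk2⟩ := exists_of_ssubset (hxy.ssubset_of_ne hne)
    refine sum_lt_sum (fun l _ => ?_) ⟨k, mem_univ k, ?_⟩
    · have h0 : 0 ≤ |a l| := abs_nonneg _
      by_cases h1 : l ∈ A x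
      · rw [if_pos h1, if_pos (hxy h1)]
      · rw [if_neg h1]
        split_ifs <;> omega
    · rw [if_pos hk1, if_neg hk2]
      have := abs_pos.2 (ha k)
      omega
  set S := univ.filter fun x : ι → Bool => ∑ k, sgn (x k) * a k = b with hS
  have hanti : IsAntichain (· ⊆ ·) (SetLike.coe (S.image A)) := by
    intro s hs t ht hst hsub
    rw [SetLike.mem_coe, mem_image] at hs ht
    obtain ⟨x, hx, rfl⟩ := hs
    obtain ⟨y, hy, rfl⟩ := ht
    have h1 := hmono x y hsub hst
    rw [hS, mem_filter] at hx hy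
    rw [hx.2, hy.2] at h1
    exact lt_irrefl _ h1
  have h2 := hanti.sperner
  rw [card_image_of_injective S hA] at h2
  exact h2

/-- **Erdős–Littlewood–Offord inequality**: if `s` of the integers `a k` are nonzero, then at most
`2 ^ n / √s` of the `2 ^ n` signed sums are equal to `b`. -/
theorem LO {ι : Type} [Fintype ι] [DecidableEq ι] (a : ι → ℤ) (b : ℤ) :
    ((univ.filter fun x : ι → Bool => ∑ k, sgn (x k) * a k = b).card : ℝ) *
      √((univ.filter fun k => a k ≠ 0).card : ℝ) ≤ 2 ^ Fintype.card ι := by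
  classical
  let e := Equiv.piEquivPiSubtypeProd (fun k => a k ≠ 0) (fun _ : ι => Bool)
  have h1 : (univ.filter fun x : ι → Bool => ∑ k, sgn (x k) * a k = b).card =
      ((univ.filter fun x : {k // a k ≠ 0} → Bool => ∑ k, sgn (x k) * a k = b) ×ˢ
        (univ : Finset ({k // ¬ a k ≠ 0} → Bool))).card := by
    refine card_equiv e ?_
    intro x
    simp only [mem_filter, mem_univ, true_and, mem_product, and_true]
    have h2 : ∑ k, sgn (x k) * a k = ∑ k : {k // a k ≠ 0}, sgn ((e x).1 k) * a k := by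
      rw [← Fintype.sum_subtype_add_sum_subtype (fun k => a k ≠ 0) (fun k => sgn (x k) * a k)]
      have h3 : ∑ k : {k // ¬ a k ≠ 0}, sgn (x k) * a k = 0 := by
        refine sum_eq_zero fun k _ => ?_
        have := k.2
        rw [not_not] at this
        rw [this, mul_zero]
      rw [h3, add_zero]
      rfl
    rw [h2]
  have h4 := LO_nonzero (fun k : {k // a k ≠ 0} => a k) (fun k => k.2) b
  have h5 : (univ.filter fun k => a k ≠ 0).card = Fintype.card {k // a k ≠ 0} :=
    (Fintype.card_subtype _).symm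
  set s := Fintype.card {k // a k ≠ 0} with hs
  have h6 : Fintype.card ι = s + Fintype.card {k // ¬ a k ≠ 0} := by
    rw [hs]
    have := Fintype.card_subtype_compl (fun k => a k ≠ 0)
    have h7 := Fintype.card_subtype_le (fun k => a k ≠ 0)
    omega
  have h8 : ((s.choose (s / 2) : ℕ) : ℝ) * √(s : ℝ) ≤ 2 ^ s := by
    have h9 : (((s.choose (s / 2)) ^ 2 * s : ℕ) : ℝ) ≤ ((4 ^ s : ℕ) : ℝ) :=
      Nat.cast_le.2 (choose_half_sq s)
    push_cast at h9
    refine abs_le_of_sq_le_sq' ?_ (by positivity) |>.2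
    rw [mul_pow, Real.sq_sqrt (by positivity), ← pow_mul, mul_comm s 2, pow_mul]
    norm_num
    exact h9
  rw [h1, card_product, card_univ, Fintype.card_fun, Fintype.card_bool, h5, h6, pow_add]
  push_cast
  have h10 : (((univ.filter fun x : {k // a k ≠ 0} → Bool => ∑ k, sgn (x k) * a k = b).card : ℕ) : ℝ)
      ≤ ((s.choose (s / 2) : ℕ) : ℝ) := Nat.cast_le.2 h4
  calc _ = (((univ.filter fun x : {k // a k ≠ 0} → Bool => ∑ k, sgn (x k) * a k = b).card : ℕ) : ℝ)
        * √(s : ℝ) * 2 ^ Fintype.card {k // ¬ a k ≠ 0} := by ring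
    _ ≤ ((s.choose (s / 2) : ℕ) : ℝ) * √(s : ℝ) * 2 ^ Fintype.card {k // ¬ a k ≠ 0} := by
      gcongr
    _ ≤ 2 ^ s * 2 ^ Fintype.card {k // ¬ a k ≠ 0} := by gcongr

end Pool.Agent.H832R2.JR
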