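import Pool.Agent.H832R2.JR.HiLo

set_option autoImplicit false

namespace Pool.Agent.H832R2.JR

open Finset Function

open Classical in
/-- a digraph with out-degrees at most `d` has an independent set of size `n / (2 d + 1)` -/
theorem indep_set {ι : Type} (R : ι → ι → Prop) (d : ℕ) :
    ∀ (n : ℕ) (S : Finset ι), S.card = n → (∀ k ∈ S, (S.filter fun l => l ≠ k ∧ R k l).card ≤ d) →
      ∃ I ⊆ S, (∀ k ∈ I, ∀ l ∈ I, k ≠ l → ¬ R k l) ∧ S.card ≤ (2 * d + 1) * I.card := by
  intro n
  induction n using Nat.strong_induction_on with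
  | _ n ih =>
    intro S hS hd
    rcases S.eq_empty_or_nonempty with rfl | hne
    · exact ⟨∅, Subset.rfl, by simp, by simp⟩
    have hsum : ∑ k ∈ S, (S.filter fun l => l ≠ k ∧ R l k).card ≤ ∑ _k ∈ S, d := by
      have e1 : ∑ k ∈ S, (S.filter fun l => l ≠ k ∧ R l k).card =
          ∑ k ∈ S, (S.filter fun l => l ≠ k ∧ R k l).card := by
        simp only [card_filter]
        rw [sum_comm]
        refine sum_congr rfl fun k _ => sum_congr rfl fun l _ => ?_
        simp only [ne_comm]
      rw [e1]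
      exact sum_le_sum hd
    obtain ⟨k, hk, hkd⟩ := exists_le_of_sum_le hne hsum
    set S' := S.filter fun l => l ≠ k ∧ ¬ R k l ∧ ¬ R l k with hS'
    have hsub : S' ⊆ S := filter_subset _ _
    have hcard : S.card ≤ S'.card + (1 + d + d) := by
      have hcov : S ⊆ S' ∪ ({k} ∪ (S.filter fun l => l ≠ k ∧ R k l) ∪
          (S.filter fun l => l ≠ k ∧ R l k)) := by
        intro l hl
        simp only [hS', mem_union, mem_filter, mem_singleton, hl, true_and]
        by_cases h1 : l = k
        · simp [h1]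
        · by_cases h2 : R k l <;> by_cases h3 : R l k <;> simp [h1, h2, h3]
      calc S.card ≤ _ := card_le_card hcov
        _ ≤ S'.card + ({k} ∪ (S.filter fun l => l ≠ k ∧ R k l) ∪
          (S.filter fun l => l ≠ k ∧ R l k)).card := card_union_le _ _
        _ ≤ S'.card + (({k} ∪ (S.filter fun l => l ≠ k ∧ R k l)).card +
          (S.filter fun l => l ≠ k ∧ R l k).card) := by
            gcongr; exact card_union_le _ _
        _ ≤ S'.card + ((1 + (S.filter fun l => l ≠ k ∧ R k l).card) +
          (S.filter fun l => l ≠ k ∧ R l k).card) := by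
            gcongr; exact (card_union_le _ _).trans (by simp)
        _ ≤ _ := by
            have := hd k hk
            omega
    have hlt : S'.card < n := by
      rw [← hS]
      refine card_lt_card ⟨hsub, fun h => ?_⟩
      have := h hk
      simp [hS'] at this
    obtain ⟨I, hI, hind, hIc⟩ := ih S'.card hlt S' rfl (by
      intro l hl
      refine (card_le_card ?_).trans (hd l (hsub hl))
      intro x hx
      rw [mem_filter] at hx ⊢
      exact ⟨hsub hx.1, hx.2⟩)
    have hkI : k ∉ I := by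
      intro h
      have := hI h
      simp [hS'] at this
    refine ⟨insert k I, ?_, ?_, ?_⟩
    · intro x hx
      rcases mem_insert.1 hx with rfl | hx
      · exact hk
      · exact hsub (hI hx)
    · intro x hx y hy hxy
      rcases mem_insert.1 hx with hx' | hx' <;> rcases mem_insert.1 hy with hy' | hy'
      · exact absurd (hx'.trans hy'.symm) hxy
      · have := hI hy'
        rw [hS', mem_filter] at this
        rw [hx']
        exact this.2.2.1
      · have := hI hx'
        rw [hS', mem_filter] at this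
        rw [hy']
        exact this.2.2.2
      · exact hind x hx' y hy' hxy
    · rw [card_insert_of_notMem hkI]
      calc S.card ≤ S'.card + (1 + d + d) := hcard
        _ ≤ (2 * d + 1) * I.card + (1 + d + d) := by omega
        _ = _ := by ring

theorem sqrt_mul_le {a b : ℝ} (c : ℝ) (hc : 0 ≤ c) (hb : 0 < b) (h : a ≤ c ^ 2 * b) :
    √a * (1 / √b) ≤ c := by
  rw [mul_one_div, div_le_iff₀ (Real.sqrt_pos.2 hb)]
  calc √a ≤ √(c ^ 2 * b) := Real.sqrt_le_sqrt h
    _ = c * √b := by rw [Real.sqrt_mul (by positivity), Real.sqrt_sq hc]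

open Classical in
/-- **Quadratic Littlewood–Offord inequality** for a quadratic form whose graph contains a matching
of size `m`. -/
theorem matching_bound {N m : ℕ} (A : Fin N → Fin N → ℤ) (hA : ∀ i j, A i j = A j i)
    (u v : Fin m → Fin N) (hu : Injective u) (hv : Injective v) (huv : ∀ k l, u k ≠ v l)
    (hdiag : ∀ k, A (u k) (v k) ≠ 0) (c : ℤ) :
    ((univ.filter fun w => Q A w = c).card : ℝ) ^ 2 * √((Nat.sqrt m : ℝ) + 1) ≤ 15 * 4 ^ N := by
  set D := Nat.sqrt m with hD
  set P : ℝ := ((univ.filter fun w => Q A w = c).card : ℝ) with hP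
  have hDm : D * D ≤ m := Nat.sqrt_le m
  have htriv : P ^ 2 ≤ 4 ^ N := by
    have h1 : P ≤ 2 ^ N := by
      have := card_le_univ (univ.filter fun w => Q A w = c)
      rw [Fintype.card_fun, Fintype.card_bool, Fintype.card_fin] at this
      rw [hP]
      exact_mod_cast this
    have h2 : (0 : ℝ) ≤ P := by positivity
    calc P ^ 2 ≤ (2 ^ N) ^ 2 := by gcongr
      _ = 4 ^ N := by rw [← pow_mul, mul_comm, pow_mul]; norm_num
  have h4N : (0 : ℝ) < 4 ^ N := by positivity
  have hsmall : D ≤ 28 → P ^ 2 * √((D : ℝ) + 1) ≤ 15 * 4 ^ N := by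
    intro h
    have h1 : √((D : ℝ) + 1) ≤ 6 := by
      rw [Real.sqrt_le_left (by norm_num)]
      have : (D : ℝ) ≤ 28 := by exact_mod_cast h
      linarith
    have h2 : 0 ≤ √((D : ℝ) + 1) := Real.sqrt_nonneg _
    nlinarith
  by_cases hD4 : D < 4
  · exact hsmall (by omega)
  rw [not_lt] at hD4
  set d : Fin m → ℕ := fun k => (univ.filter fun l => A (u k) (v l) ≠ 0).card with hd
  set Hi := univ.filter fun k => D ≤ d k with hHi
  set Lo := univ.filter fun k => ¬ D ≤ d k with hLo
  have hsum : Hi.card + Lo.card = m := by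
    have := card_filter_add_card_filter_not (s := (univ : Finset (Fin m))) (fun k => D ≤ d k)
    rw [card_univ, Fintype.card_fin] at this
    exact this
  by_cases hcase : m ≤ 2 * Hi.card
  · -- many rows of large degree
    have hs1 : 0 < D / 4 := by omega
    have hHc : Fintype.card Hi = Hi.card := Fintype.card_coe Hi
    have h1 := hi_case A hA (fun k : Hi => u k) (hu.comp Subtype.val_injective) c D (D / 4)
      (by omega) hs1 (by rw [hHc]; nlinarith [Nat.div_mul_le_self D 4]) ?_
    · have e1 : √((D : ℝ) + 1) * (1 / √((D / 4 : ℕ) : ℝ)) ≤ 3 := by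
        refine sqrt_mul_le 3 (by norm_num) (by exact_mod_cast hs1) ?_
        have : D + 1 ≤ 9 * (D / 4) := by omega
        have h2 : ((D + 1 : ℕ) : ℝ) ≤ ((9 * (D / 4) : ℕ) : ℝ) := Nat.cast_le.2 this
        push_cast at h2
        norm_num
        exact h2
      have e2 : √((D : ℝ) + 1) * (1 / √(D : ℝ)) ≤ 2 := by
        have hDpos : (4 : ℝ) ≤ D := by exact_mod_cast hD4
        refine sqrt_mul_le 2 (by norm_num) (by linarith) (by linarith)
      have e3 : 0 ≤ √((D : ℝ) + 1) := Real.sqrt_nonneg _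
      calc P ^ 2 * √((D : ℝ) + 1) ≤
            (4 ^ N * (1 / √((D / 4 : ℕ) : ℝ) + 2 / √(D : ℝ))) * √((D : ℝ) + 1) := by
              gcongr
        _ = 4 ^ N * (√((D : ℝ) + 1) * (1 / √((D / 4 : ℕ) : ℝ)) +
            2 * (√((D : ℝ) + 1) * (1 / √(D : ℝ)))) := by ring
        _ ≤ 4 ^ N * (3 + 2 * 2) := by gcongr
        _ ≤ _ := by linarith
    · rintro ⟨k, hk⟩
      have hk' : D ≤ d k := by
        rw [hHi, mem_filter] at hk
        exact hk.2
      refine hk'.trans ?_
      rw [hd]
      refine card_le_card_of_injOn v ?_ hv.injOn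
      intro l hl
      simp only [coe_filter, mem_univ, true_and, Set.mem_ofPred_eq] at hl ⊢
      refine ⟨?_, hl⟩
      rintro ⟨l', hl'⟩
      exact huv _ _ hl'
  · -- many rows of small degree
    have hLc : m ≤ 2 * Lo.card := by omega
    obtain ⟨I, hI, hind, hIc⟩ := indep_set (fun k l => A (u k) (v l) ≠ 0) D Lo.card Lo rfl (by
      intro k hk
      have hk' : ¬ D ≤ d k := by
        rw [hLo, mem_filter] at hk
        exact hk.2
      refine le_trans (card_le_card (t := univ.filter fun l => A (u k) (v l) ≠ 0) ?_)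
        (show d k ≤ D by omega)
      intro x hx
      simp only [mem_filter, mem_univ, true_and] at hx ⊢
      exact hx.2.2)
    set n := I.card with hn
    have hmn : D * D ≤ 2 * ((2 * D + 1) * n) := by omega
    by_cases hn8 : n < 8
    · apply hsmall
      by_contra hcon
      have : 29 ≤ D := by omega
      have h7 : n ≤ 7 := by omega
      nlinarith
    · rw [not_lt] at hn8
      have hs1 : 0 < n / 8 := by omega
      have hIc' : Fintype.card I = n := Fintype.card_coe I
      have h1 := lo_case A hA (fun k : I => u k) (fun k : I => v k)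
        (hu.comp Subtype.val_injective) (hv.comp Subtype.val_injective) (fun k l => huv k l)
        (fun k => hdiag k) (fun k l hkl => by
          have := hind k k.2 l l.2 (fun h => hkl (Subtype.ext h))
          simpa using this) c (n / 8) hs1 (by rw [hIc']; omega)
      rw [hIc'] at h1
      have hD6 : D + 1 ≤ 6 * n := by
        have h2 : (D + 1) * (4 * D + 2) ≤ (6 * n) * (4 * D + 2) := by nlinarith
        exact Nat.le_of_mul_le_mul_right h2 (by omega)
      have e1 : √((D : ℝ) + 1) * (1 / √((n / 8 : ℕ) : ℝ)) ≤ 9.8 := by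
        refine sqrt_mul_le 9.8 (by norm_num) (by exact_mod_cast hs1) ?_
        have : D + 1 ≤ 96 * (n / 8) := by omega
        have h2 : ((D + 1 : ℕ) : ℝ) ≤ ((96 * (n / 8) : ℕ) : ℝ) := Nat.cast_le.2 this
        push_cast at h2
        have h3 : (0 : ℝ) ≤ ((n / 8 : ℕ) : ℝ) := by positivity
        norm_num
        linarith
      have e2 : √((D : ℝ) + 1) * (1 / √(n : ℝ)) ≤ 2.5 := by
        have hnpos : (0 : ℝ) < n := by
          have : 0 < n := by omega
          exact_mod_cast this
        refine sqrt_mul_le 2.5 (by norm_num) hnpos ?_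
        have h2 : ((D + 1 : ℕ) : ℝ) ≤ ((6 * n : ℕ) : ℝ) := Nat.cast_le.2 hD6
        push_cast at h2
        norm_num
        linarith
      have e3 : 0 ≤ √((D : ℝ) + 1) := Real.sqrt_nonneg _
      calc P ^ 2 * √((D : ℝ) + 1) ≤
            (4 ^ N * (1 / √((n / 8 : ℕ) : ℝ) + 2 / √(n : ℝ))) * √((D : ℝ) + 1) := by
              gcongr
        _ = 4 ^ N * (√((D : ℝ) + 1) * (1 / √((n / 8 : ℕ) : ℝ)) +
            2 * (√((D : ℝ) + 1) * (1 / √(n : ℝ)))) := by ring
        _ ≤ 4 ^ N * (9.8 + 2 * 2.5) := by gcongr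
        _ ≤ _ := by linarith

open Classical in
/-- **Quadratic Littlewood–Offord inequality**, second form. -/
theorem matching_bound' {N m : ℕ} (A : Fin N → Fin N → ℤ) (hA : ∀ i j, A i j = A j i)
    (u v : Fin m → Fin N) (hu : Injective u) (hv : Injective v) (huv : ∀ k l, u k ≠ v l)
    (hdiag : ∀ k, A (u k) (v k) ≠ 0) (c : ℤ) :
    ((univ.filter fun w => Q A w = c).card : ℝ) * (m : ℝ) ^ (1 / 8 : ℝ) ≤ 4 * 2 ^ N := by
  have h1 := matching_bound A hA u v hu hv huv hdiag c
  set P : ℝ := ((univ.filter fun w => Q A w = c).card : ℝ) with hP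
  have hP0 : 0 ≤ P := by positivity
  have hm : (m : ℝ) ≤ ((Nat.sqrt m : ℝ) + 1) ^ 2 := by
    have := (Nat.lt_succ_sqrt' m).le
    have h2 : ((m : ℕ) : ℝ) ≤ (((Nat.sqrt m).succ ^ 2 : ℕ) : ℝ) := Nat.cast_le.2 this
    push_cast at h2
    exact h2
  have hm0 : (0 : ℝ) ≤ m := by positivity
  have h2 : ((m : ℝ) ^ (1 / 8 : ℝ)) ^ 2 ≤ √((Nat.sqrt m : ℝ) + 1) := by
    rw [← Real.rpow_natCast, ← Real.rpow_mul hm0]
    calc (m : ℝ) ^ ((1 / 8 : ℝ) * ((2 : ℕ) : ℝ)) ≤
          (((Nat.sqrt m : ℝ) + 1) ^ 2) ^ ((1 / 8 : ℝ) * ((2 : ℕ) : ℝ)) :=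
          Real.rpow_le_rpow hm0 hm (by norm_num)
      _ = √((Nat.sqrt m : ℝ) + 1) := by
          rw [Real.sqrt_eq_rpow, ← Real.rpow_natCast, ← Real.rpow_mul (by positivity)]
          norm_num
  refine abs_le_of_sq_le_sq' ?_ (by positivity) |>.2
  calc (P * (m : ℝ) ^ (1 / 8 : ℝ)) ^ 2 = P ^ 2 * ((m : ℝ) ^ (1 / 8 : ℝ)) ^ 2 := by ring
    _ ≤ P ^ 2 * √((Nat.sqrt m : ℝ) + 1) := by gcongr
    _ ≤ 15 * 4 ^ N := h1
    _ ≤ 16 * 4 ^ N := by gcongr; norm_num
    _ = (4 * 2 ^ N) ^ 2 := by
        rw [mul_pow, ← pow_mul, mul_comm N 2, pow_mul]; norm_num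

end Pool.Agent.H832R2.JR
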