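import Mathlib

set_option autoImplicit false

namespace Pool.Agent.H832R2.JR

open Function

/-- Quotients by mutually implying relations have the same number of classes. -/
theorem card_quot_congr {H : Type} (r r' : H → H → Prop)
    (h1 : ∀ x y, r x y → Quot.mk r' x = Quot.mk r' y)
    (h2 : ∀ x y, r' x y → Quot.mk r x = Quot.mk r y) :
    Nat.card (Quot r) = Nat.card (Quot r') := by
  refine Nat.card_congr ⟨Quot.lift (Quot.mk r') h1, Quot.lift (Quot.mk r) h2, ?_, ?_⟩
  · rintro ⟨x⟩; rfl
  · rintro ⟨x⟩; rfl

/-- the relation `r` with the pair `(x, y)` added -/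
def addPair {H : Type} (r : H → H → Prop) (x y : H) : H → H → Prop :=
  fun u v => r u v ∨ (u = x ∧ v = y)

theorem quot_mono {H : Type} {r r' : H → H → Prop} (h : ∀ x y, r x y → r' x y) {x y : H}
    (hxy : Quot.mk r x = Quot.mk r y) : Quot.mk r' x = Quot.mk r' y := by
  have := congrArg (Quot.lift (Quot.mk r') (fun a b hab => Quot.sound (h a b hab))) hxy
  exact this

theorem addPair_mk {H : Type} (r : H → H → Prop) (x y : H) :
    Quot.mk (addPair r x y) x = Quot.mk (addPair r x y) y :=
  Quot.sound (Or.inr ⟨rfl, rfl⟩)

/-- adding a pair of points in the same class does not change the number of classes -/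
theorem card_addPair_same {H : Type} (r : H → H → Prop) (x y : H)
    (h : Quot.mk r x = Quot.mk r y) :
    Nat.card (Quot (addPair r x y)) = Nat.card (Quot r) := by
  refine card_quot_congr _ _ ?_ ?_
  · rintro u v (h1 | ⟨rfl, rfl⟩)
    · exact Quot.sound h1
    · exact h
  · intro u v h1
    exact Quot.sound (Or.inl h1)

/-- if `x` and `y` are in different classes, then after adding the pair `(x, y)` exactly the
classes of `x` and `y` are merged -/
theorem addPair_mk_eq {H : Type} (r : H → H → Prop) (x y : H) {u v : H}
    (h : Quot.mk (addPair r x y) u = Quot.mk (addPair r x y) v) :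
    Quot.mk r u = Quot.mk r v ∨ (Quot.mk r u = Quot.mk r x ∧ Quot.mk r v = Quot.mk r y) ∨
      (Quot.mk r u = Quot.mk r y ∧ Quot.mk r v = Quot.mk r x) := by
  classical
  let f : H → Quot r := fun u => if Quot.mk r u = Quot.mk r y then Quot.mk r x else Quot.mk r u
  have hf : ∀ a b, addPair r x y a b → f a = f b := by
    rintro a b (h1 | ⟨rfl, rfl⟩)
    · have : Quot.mk r a = Quot.mk r b := Quot.sound h1
      simp only [f, this]
    · simp only [f, if_true]
      split_ifs <;> rfl
  have h2 : f u = f v := congrArg (Quot.lift f hf) h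
  simp only [f] at h2
  split_ifs at h2 with ha hb hb
  · exact Or.inl (ha.trans hb.symm)
  · exact Or.inr (Or.inr ⟨ha, h2.symm⟩)
  · exact Or.inr (Or.inl ⟨h2, hb⟩)
  · exact Or.inl h2

/-- adding a pair of points in different classes lowers the number of classes by one -/
theorem card_addPair_diff {H : Type} [Finite H] (r : H → H → Prop) (x y : H)
    (h : Quot.mk r x ≠ Quot.mk r y) :
    Nat.card (Quot (addPair r x y)) + 1 = Nat.card (Quot r) := by
  classical
  have : Finite (Quot r) := Quot.finite _
  have : Fintype (Quot r) := Fintype.ofFinite _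
  let f : H → Quot r := fun u => if Quot.mk r u = Quot.mk r y then Quot.mk r x else Quot.mk r u
  have hf : ∀ a b, addPair r x y a b → f a = f b := by
    rintro a b (h1 | ⟨rfl, rfl⟩)
    · have : Quot.mk r a = Quot.mk r b := Quot.sound h1
      simp only [f, this]
    · simp only [f, if_true]
      split_ifs <;> rfl
  have hne : ∀ u, f u ≠ Quot.mk r y := by
    intro u
    simp only [f]
    split_ifs with h1
    · exact h
    · exact h1
  have e : Quot (addPair r x y) ≃ {q : Quot r // q ≠ Quot.mk r y} := by
    refine ⟨Quot.lift (fun u => ⟨f u, hne u⟩) (fun a b hab => Subtype.ext (hf a b hab)),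
      fun q => Quot.lift (Quot.mk (addPair r x y)) (fun a b hab => Quot.sound (Or.inl hab)) q.1,
      ?_, ?_⟩
    · rintro ⟨u⟩
      show Quot.lift (Quot.mk (addPair r x y)) _ (f u) = Quot.mk (addPair r x y) u
      simp only [f]
      split_ifs with h1
      · have h2 := quot_mono (r' := addPair r x y) (fun a b hab => Or.inl hab) h1
        rw [h2]
        exact addPair_mk r x y
      · rfl
    · rintro ⟨⟨u⟩, hu⟩
      apply Subtype.ext
      show f u = Quot.mk r u
      simp only [f]
      rw [if_neg hu]
  rw [Nat.card_congr e, Nat.card_eq_fintype_card, Nat.card_eq_fintype_card,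
    Fintype.card_subtype_compl, Fintype.card_subtype_eq]
  have : 0 < Fintype.card (Quot r) := Fintype.card_pos_iff.mpr ⟨Quot.mk r x⟩
  omega

end Pool.Agent.H832R2.JR
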