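import Pool.Agent.H832R2.JR.Zsum
import Pool.Agent.H832R2.JR.Decouple

set_option autoImplicit false

namespace Pool.Agent.H832R2.JR

open Finset LaurentPolynomial Function

variable {N : ℕ}

/-- the smoothings of a state as elements of `Fin 3` -/
def tri (s : Fin N → Bool) (c : Fin N) : Fin 3 := if s c then 1 else 2

theorem loops_eq (G : GaussWord N) (s : Fin N → Bool) : loops G s = L G (tri s) := by
  refine card_quot_congr _ _ ?_ ?_
  · rintro x y (⟨p, rfl, rfl⟩ | ⟨c, b, hs, rfl, rfl⟩ | ⟨c, e, hs, rfl, rfl⟩)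
    · exact Quot.sound (Or.inl rfl)
    · refine Quot.sound (Or.inr ?_)
      simp [smooth, tri, hs]
    · refine Quot.sound (Or.inr ?_)
      simp [smooth, tri, hs]
  · have harc : ∀ x, Quot.mk (Joined G s) x = Quot.mk (Joined G s) (arcFun G x) := by
      rintro ⟨p, _ | _⟩
      · show Quot.mk (Joined G s) (p, false) = Quot.mk (Joined G s) ((next G).symm p, true)
        refine Eq.symm (Quot.sound (Or.inl ⟨(next G).symm p, rfl, ?_⟩))
        simp
      · exact Quot.sound (Or.inl ⟨p, rfl, rfl⟩)
    have hsm : ∀ x, Quot.mk (Joined G s) x = Quot.mk (Joined G s) (smooth (tri s) x) := by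
      rintro ⟨⟨c, b⟩, e⟩
      cases hs : s c
      · have e1 : smooth (tri s) ((c, b), e) = ((c, !b), e) := by simp [smooth, tri, hs]
        rw [e1]
        cases b
        · exact Quot.sound (Or.inr (Or.inr ⟨c, e, hs, rfl, rfl⟩))
        · exact Eq.symm (Quot.sound (Or.inr (Or.inr ⟨c, e, hs, rfl, rfl⟩)))
      · have e1 : smooth (tri s) ((c, b), e) = ((c, !b), !e) := by simp [smooth, tri, hs]
        rw [e1]
        cases e
        · exact Quot.sound (Or.inr (Or.inl ⟨c, b, hs, rfl, rfl⟩))
        · exact Eq.symm (Quot.sound (Or.inr (Or.inl ⟨c, !b, hs, rfl, by simp⟩)))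
    rintro x y (rfl | rfl)
    · exact harc x
    · exact hsm x

/-- unipotent matrices recording the first two moments -/
def mmat (k : ℤ) : Matrix (Fin 3) (Fin 3) ℤ := !![1, k, k ^ 2; 0, 1, 2 * k; 0, 0, 1]

theorem mmat_add (a b : ℤ) : mmat (a + b) = mmat a * mmat b := by
  unfold mmat
  ext i j
  fin_cases i <;> fin_cases j <;> simp [Matrix.mul_apply, Fin.sum_univ_three] <;> ring

theorem mmat_zero : mmat 0 = 1 := by
  unfold mmat
  ext i j
  fin_cases i <;> fin_cases j <;> simp

/-- the representation `T k ↦ mmat k` -/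
noncomputable def rho : ℤ[T;T⁻¹] →ₐ[ℤ] Matrix (Fin 3) (Fin 3) ℤ :=
  AddMonoidAlgebra.lift ℤ (Matrix (Fin 3) (Fin 3) ℤ) ℤ
    { toFun := fun k => mmat k.toAdd
      map_one' := mmat_zero
      map_mul' := fun a b => mmat_add a.toAdd b.toAdd }

theorem rho_T (k : ℤ) : rho (T k) = mmat k := by
  unfold rho T
  rw [AddMonoidAlgebra.lift_single, one_smul]
  rfl

theorem rho_d (l : ℕ) : rho ((-T 2 - T (-2)) ^ l) =
    !![(-2 : ℤ) ^ l, 0, (-2 : ℤ) ^ l * (4 * (l : ℤ)); 0, (-2 : ℤ) ^ l, 0; 0, 0, (-2 : ℤ) ^ l] := by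
  rw [map_pow, map_sub, map_neg, rho_T, rho_T]
  induction l with
  | zero =>
    ext i j
    fin_cases i <;> fin_cases j <;> simp
  | succ l ih =>
    rw [pow_succ, ih]
    unfold mmat
    ext i j
    fin_cases i <;> fin_cases j <;> simp [Matrix.mul_apply, Fin.sum_univ_three] <;> ring

/-- the second moment of the normalised bracket -/
theorem rho_fPoly (G : GaussWord N) (w : Fin N → Bool) :
    rho (fPoly G w) 0 2 = (if Even (writhe w) then 1 else -1) *
      ∑ s : Fin N → Bool, (-2) ^ (loops G s - 1) *
        ((weight w s - 3 * writhe w) ^ 2 + 4 * ((loops G s - 1 : ℕ) : ℤ)) := by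
  have h1 : ∀ s : Fin N → Bool, (rho (T (-3 * writhe w)) *
      rho (T (weight w s) * (-T 2 - T (-2)) ^ (loops G s - 1))) 0 2 =
      (-2) ^ (loops G s - 1) *
        ((weight w s - 3 * writhe w) ^ 2 + 4 * ((loops G s - 1 : ℕ) : ℤ)) := by
    intro s
    rw [map_mul, rho_d, rho_T, rho_T, ← mul_assoc, ← mmat_add]
    unfold mmat
    simp only [Matrix.mul_apply, Fin.sum_univ_three]
    simp
    ring
  have h2 : (rho (T (-3 * writhe w) * bracket G w)) 0 2 = ∑ s : Fin N → Bool,
      (-2) ^ (loops G s - 1) *
        ((weight w s - 3 * writhe w) ^ 2 + 4 * ((loops G s - 1 : ℕ) : ℤ)) := by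
    unfold bracket
    rw [map_mul, map_sum, Finset.mul_sum, Matrix.sum_apply]
    exact sum_congr rfl fun s _ => h1 s
  unfold fPoly
  split_ifs with h
  · rw [one_mul, one_mul]
    exact h2
  · have h3 : (-1 : ℤ[T;T⁻¹]) * T (-3 * writhe w) * bracket G w =
        -(T (-3 * writhe w) * bracket G w) := by ring
    rw [h3, map_neg, Matrix.neg_apply, h2, neg_one_mul]

theorem writhe_parity (w : Fin N → Bool) : Even (writhe w) ↔ Even (N : ℤ) := by
  have h : writhe w + N = 2 * ∑ c, (if w c then 1 else 0) := by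
    unfold writhe
    rw [mul_sum]
    have : (N : ℤ) = ∑ _c : Fin N, 1 := by simp
    rw [this]
    rw [← sum_add_distrib]
    refine sum_congr rfl fun c _ => ?_
    unfold sgn
    split_ifs <;> norm_num
  constructor
  · intro hw
    have h1 : Even (writhe w + N) := ⟨_, by rw [h]; ring⟩
    exact (Int.even_add.1 h1).1 hw
  · intro hN
    have h1 : Even (writhe w + N) := ⟨_, by rw [h]; ring⟩
    exact (Int.even_add.1 h1).2 hN

/-- the factor of a crossing in the second moment: `1` for the oriented smoothing, `2` for the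
unoriented one -/
def gval (s : Fin N → Bool) (c : Fin N) : ℤ := if s c then 1 else 2

theorem weight_sub (w s : Fin N → Bool) :
    weight w s - 3 * writhe w = -2 * ∑ c, sgn (w c) * gval s c := by
  unfold weight writhe
  rw [mul_sum, mul_sum, ← sum_sub_distrib]
  refine sum_congr rfl fun c _ => ?_
  unfold sgn gval
  split_ifs <;> norm_num

open Classical in
theorem pair_sum (G : GaussWord N) (i j : Fin N) (hij : i ≠ j) :
    ∑ s : Fin N → Bool, (-2) ^ loops G s * (gval s i * gval s j) =
      (-1) ^ N * (if Crosses G i j then 6 else 0) := by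
  rw [← Z_pair G i j hij]
  unfold Z
  refine Fintype.sum_of_injective tri ?_ _ _ ?_ ?_
  · intro s s' h
    funext c
    have h1 := congrFun h c
    unfold tri at h1
    cases hs : s c <;> cases hs' : s' c <;> simp_all
  · intro t ht
    have : ∃ c, t c = 0 := by
      by_contra hcon
      push Not at hcon
      apply ht
      refine ⟨fun c => decide (t c = 1), ?_⟩
      funext c
      have := hcon c
      unfold tri
      by_cases h1 : t c = 1
      · simp [h1]
      · simp only [h1, decide_false, Bool.false_eq_true, if_false]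
        omega
    obtain ⟨c, hc⟩ := this
    rw [prod_eq_zero (mem_univ c), zero_mul]
    simp [hc]
  · intro s
    rw [loops_eq, mul_comm]
    congr 1
    have h1 : ∀ c, (if c = i ∨ c = j then (if tri s c = 0 then (0 : ℤ) else if tri s c = 1 then 1
        else 2) else (if tri s c = 0 then 0 else 1)) = if c = i ∨ c = j then gval s c else 1 := by
      intro c
      unfold tri gval
      cases hs : s c <;> simp
    rw [prod_congr rfl (fun c _ => h1 c), ← prod_filter]
    have h2 : (univ.filter fun c => c = i ∨ c = j) = {i, j} := by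
      ext c; simp
    rw [h2, prod_pair hij]

open Classical in
/-- the adjacency matrix of the interlacement graph -/
noncomputable def adjm (G : GaussWord N) (i j : Fin N) : ℤ := if Crosses G i j then 1 else 0

theorem adjm_symm (G : GaussWord N) (i j : Fin N) : adjm G i j = adjm G j i := by
  unfold adjm
  by_cases h : Crosses G i j
  · rw [if_pos h, if_pos]
    exact Pool.Agent.H832R2.JR.crosses_symm G i j h
  · rw [if_neg h, if_neg]
    exact fun h' => h (Pool.Agent.H832R2.JR.crosses_symm G j i h')

/-- **The second moment of the normalised bracket**: up to a constant depending only on the shadow,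
it is a multiple of the sum of `w_i w_j` over all pairs of crossing chords. -/
theorem second_moment (G : GaussWord N) (i₀ : Fin N) :
    ∃ K : ℤ, ∀ w : Fin N → Bool, rho (fPoly G w) 0 2 = K - 12 * Q (adjm G) w := by
  classical
  set ε : ℤ := if Even (N : ℤ) then 1 else -1 with hε
  have hε2 : ε = (-1) ^ N := by
    rw [hε]
    by_cases h : Even (N : ℤ)
    · rw [if_pos h, Even.neg_one_pow ((Int.even_coe_nat N).1 h)]
    · rw [if_neg h, Odd.neg_one_pow]
      rw [Int.even_coe_nat, Nat.not_even_iff_odd] at h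
      exact h
  have hL : ∀ s, 1 ≤ loops G s := fun s => by rw [loops_eq]; exact one_le_L G _ i₀
  set K1 : ℤ := ∑ s : Fin N → Bool, (-2) ^ loops G s * (4 * ((loops G s - 1 : ℕ) : ℤ)) with hK1
  set W : Fin N → Fin N → ℤ := fun i j =>
    ∑ s : Fin N → Bool, (-2) ^ loops G s * (gval s i * gval s j) with hW
  have key : ∀ w : Fin N → Bool, -2 * rho (fPoly G w) 0 2 =
      ε * (K1 + 4 * ∑ i, W i i) + 24 * Q (adjm G) w := by
    intro w
    have e1 : -2 * ∑ s : Fin N → Bool, (-2) ^ (loops G s - 1) *
        ((weight w s - 3 * writhe w) ^ 2 + 4 * ((loops G s - 1 : ℕ) : ℤ)) =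
        K1 + 4 * ∑ i, ∑ j, sgn (w i) * sgn (w j) * W i j := by
      have e2 : ∑ i, ∑ j, sgn (w i) * sgn (w j) * W i j = ∑ s : Fin N → Bool,
          (-2) ^ loops G s * (∑ c, sgn (w c) * gval s c) ^ 2 := by
        simp only [hW, mul_sum]
        have e3 : ∀ i, ∑ j, ∑ s : Fin N → Bool, sgn (w i) * sgn (w j) *
            ((-2) ^ loops G s * (gval s i * gval s j)) = ∑ s : Fin N → Bool, ∑ j,
            sgn (w i) * sgn (w j) * ((-2) ^ loops G s * (gval s i * gval s j)) := fun i => sum_comm
        rw [sum_congr rfl (fun i _ => e3 i), sum_comm]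
        refine sum_congr rfl fun s _ => ?_
        rw [sq, sum_mul_sum, mul_sum]
        refine sum_congr rfl fun i _ => ?_
        rw [mul_sum]
        refine sum_congr rfl fun j _ => ?_
        ring
      rw [e2, hK1, mul_sum, mul_sum, ← sum_add_distrib]
      refine sum_congr rfl fun s _ => ?_
      obtain ⟨l, hl⟩ : ∃ l, loops G s = l + 1 := ⟨loops G s - 1, by have := hL s; omega⟩
      rw [weight_sub, hl, Nat.add_sub_cancel]
      ring
    have e4 : ∑ i, ∑ j, sgn (w i) * sgn (w j) * W i j = ∑ i, W i i + ε * 6 * Q (adjm G) w := by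
      unfold Q
      rw [mul_sum, ← sum_add_distrib]
      refine sum_congr rfl fun i _ => ?_
      rw [mul_sum]
      have e5 : W i i = ∑ j, if j = i then W i i else 0 := by simp
      rw [e5, ← sum_add_distrib]
      refine sum_congr rfl fun j _ => ?_
      by_cases hij : j = i
      · subst hij
        have e6 : sgn (w j) * sgn (w j) = 1 := by unfold sgn; split_ifs <;> norm_num
        have e7 : adjm G j j = 0 := by
          unfold adjm; rw [if_neg (not_crosses_self G j)]
        rw [if_pos rfl, e6, e7]; ring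
      · rw [if_neg hij, hW]
        simp only
        rw [pair_sum G i j (Ne.symm hij), hε2]
        unfold adjm
        split_ifs <;> ring
    rw [rho_fPoly]
    have e8 : (if Even (writhe w) then (1 : ℤ) else -1) = ε := by
      rw [hε]
      by_cases h : Even (N : ℤ)
      · rw [if_pos h, if_pos ((writhe_parity w).2 h)]
      · rw [if_neg h, if_neg (fun h' => h ((writhe_parity w).1 h'))]
    rw [e8]
    have e9 : ε * ε = 1 := by rw [hε]; split_ifs <;> norm_num
    calc -2 * (ε * ∑ s : Fin N → Bool, (-2) ^ (loops G s - 1) *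
        ((weight w s - 3 * writhe w) ^ 2 + 4 * ((loops G s - 1 : ℕ) : ℤ))) =
        ε * (-2 * ∑ s : Fin N → Bool, (-2) ^ (loops G s - 1) *
        ((weight w s - 3 * writhe w) ^ 2 + 4 * ((loops G s - 1 : ℕ) : ℤ))) := by ring
      _ = ε * (K1 + 4 * (∑ i, W i i + ε * 6 * Q (adjm G) w)) := by rw [e1, e4]
      _ = ε * (K1 + 4 * ∑ i, W i i) + 24 * (ε * ε) * Q (adjm G) w := by ring
      _ = _ := by rw [e9]; ring
  refine ⟨rho (fPoly G (fun _ => true)) 0 2 + 12 * Q (adjm G) (fun _ => true), fun w => ?_⟩
  have k1 := key w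
  have k2 := key (fun _ => true)
  linarith

end Pool.Agent.H832R2.JR
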