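import Mathlib

set_option autoImplicit false

namespace Pool.Agent.H832R2.JR

open Function

/-- the relation generated by two maps -/
def gen {H : Type} (α β : H → H) : H → H → Prop := fun x y => y = α x ∨ y = β x

variable {H : Type}

theorem dihedral (α β : Equiv.Perm H) (hα : ∀ x, α (α x) = x) (hβ : ∀ x, β (β x) = x) (k : ℤ) :
    α * (α * β) ^ k = (α * β) ^ (-k) * α ∧ β * (α * β) ^ k = (α * β) ^ (-k) * β := by
  have ha : α * α = 1 := by ext x; simp [hα]
  have hb : β * β = 1 := by ext x; simp [hβ]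
  have ha' : α⁻¹ = α := inv_eq_of_mul_eq_one_left ha
  have hb' : β⁻¹ = β := inv_eq_of_mul_eq_one_left hb
  have h1 : α * (α * β) * α⁻¹ = (α * β)⁻¹ := by
    rw [mul_inv_rev, ha', hb', ← mul_assoc, ha, one_mul]
  have h2 : β * (α * β) * β⁻¹ = (α * β)⁻¹ := by
    rw [mul_inv_rev, ha', hb', mul_assoc, mul_assoc, hb, mul_one]
  constructor
  · have : α * (α * β) ^ k * α⁻¹ = (α * β) ^ (-k) := by
      rw [← conj_zpow, h1, inv_zpow, zpow_neg]
    rw [← this, inv_mul_cancel_right]
  · have : β * (α * β) ^ k * β⁻¹ = (α * β) ^ (-k) := by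
      rw [← conj_zpow, h2, inv_zpow, zpow_neg]
    rw [← this, inv_mul_cancel_right]

theorem alpha_zpow (α β : Equiv.Perm H) (hα : ∀ x, α (α x) = x) (hβ : ∀ x, β (β x) = x)
    (a : H) (ha : β a = a) (k : ℤ) :
    α (((α * β) ^ k) a) = ((α * β) ^ (1 - k)) a := by
  have h := congrArg (fun f : Equiv.Perm H => f a) (dihedral α β hα hβ k).1
  simp only [Equiv.Perm.mul_apply] at h
  rw [h, show (1 : ℤ) - k = -k + 1 by ring, zpow_add, zpow_one, Equiv.Perm.mul_apply,
    Equiv.Perm.mul_apply, ha]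

theorem beta_zpow (α β : Equiv.Perm H) (hα : ∀ x, α (α x) = x) (hβ : ∀ x, β (β x) = x)
    (a : H) (ha : β a = a) (k : ℤ) :
    β (((α * β) ^ k) a) = ((α * β) ^ (-k)) a := by
  have h := congrArg (fun f : Equiv.Perm H => f a) (dihedral α β hα hβ k).2
  simp only [Equiv.Perm.mul_apply] at h
  rw [h, ha]

theorem mk_zpow (α β : Equiv.Perm H) (a : H) (k : ℤ) :
    Quot.mk (gen α β) (((α * β) ^ k) a) = Quot.mk (gen α β) a := by
  have h1 : ∀ x, Quot.mk (gen α β) (β x) = Quot.mk (gen α β) x :=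
    fun x => (Quot.sound (r := gen α β) (Or.inr rfl)).symm
  have h2 : ∀ x, Quot.mk (gen α β) (α x) = Quot.mk (gen α β) x :=
    fun x => (Quot.sound (r := gen α β) (Or.inl rfl)).symm
  have h3 : ∀ x, Quot.mk (gen α β) ((α * β) x) = Quot.mk (gen α β) x := by
    intro x
    rw [Equiv.Perm.mul_apply, h2, h1]
  induction k using Int.induction_on generalizing a with
  | zero => simp
  | succ n ih =>
    rw [zpow_add, Equiv.Perm.mul_apply, ih, zpow_one, h3]
  | pred n ih =>
    rw [zpow_sub, Equiv.Perm.mul_apply, ih, zpow_one]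
    have := h3 ((α * β)⁻¹ a)
    rw [← Equiv.Perm.mul_apply, mul_inv_cancel, Equiv.Perm.one_apply] at this
    exact this.symm

theorem eq_zpow_of_mk (α β : Equiv.Perm H) (hα : ∀ x, α (α x) = x) (hβ : ∀ x, β (β x) = x)
    (a : H) (ha : β a = a) (z : H) (hz : Quot.mk (gen α β) a = Quot.mk (gen α β) z) :
    ∃ k : ℤ, z = ((α * β) ^ k) a := by
  let P : H → Prop := fun z => ∃ k : ℤ, z = ((α * β) ^ k) a
  have hPα : ∀ z, P z → P (α z) := by
    rintro z ⟨k, rfl⟩
    exact ⟨1 - k, alpha_zpow α β hα hβ a ha k⟩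
  have hPβ : ∀ z, P z → P (β z) := by
    rintro z ⟨k, rfl⟩
    exact ⟨-k, beta_zpow α β hα hβ a ha k⟩
  have hP : ∀ x y, gen α β x y → P x = P y := by
    rintro x y (rfl | rfl)
    · refine propext ⟨hPα x, fun h => ?_⟩
      have := hPα _ h
      rwa [hα] at this
    · refine propext ⟨hPβ x, fun h => ?_⟩
      have := hPβ _ h
      rwa [hβ] at this
  have h1 : P a = P z := congrArg (Quot.lift P hP) hz
  have h2 : P a := ⟨0, by simp⟩
  rw [h1] at h2
  exact h2

/-- **Path lemma.** Let `α, β` be involutions of a finite set, `α` without fixed points.  Every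
class of the generated relation which contains a fixed point `a` of `β` contains exactly one other
fixed point of `β`. -/
theorem path_lemma [Finite H] (α β : Equiv.Perm H) (hα : ∀ x, α (α x) = x)
    (hβ : ∀ x, β (β x) = x) (hαf : ∀ x, α x ≠ x) (a : H) (ha : β a = a) :
    ∃ b, b ≠ a ∧ β b = b ∧ Quot.mk (gen α β) b = Quot.mk (gen α β) a ∧
      ∀ c, β c = c → Quot.mk (gen α β) a = Quot.mk (gen α β) c → c = a ∨ c = b := by
  set g : Equiv.Perm H := α * β with hg
  set n : ℕ := Function.minimalPeriod (fun x => g • x) a with hn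
  have hper : ∀ k : ℤ, (g ^ k) a = a ↔ (n : ℤ) ∣ k := by
    intro k
    exact MulAction.zpow_smul_eq_iff_minimalPeriod_dvd (a := g) (b := a) (n := k)
  have hinj : Function.Injective (fun x : H => g • x) := MulAction.injective g
  have hnpos : 0 < n := Function.minimalPeriod_pos_of_mem_periodicPts (hinj.mem_periodicPts a)
  have heq : ∀ k l : ℤ, (g ^ k) a = (g ^ l) a ↔ (n : ℤ) ∣ k - l := by
    intro k l
    rw [← hper, zpow_sub, Equiv.Perm.mul_apply]
    constructor
    · intro h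
      have h5 : (g ^ k * (g ^ l)⁻¹) a = ((g ^ l)⁻¹ * g ^ k) a := by
        rw [← zpow_neg, ← zpow_add, ← zpow_add, add_comm]
      rw [← Equiv.Perm.mul_apply, h5, Equiv.Perm.mul_apply, h, ← Equiv.Perm.mul_apply,
        inv_mul_cancel, Equiv.Perm.one_apply]
    · intro h
      have h5 : (g ^ k * (g ^ l)⁻¹) a = ((g ^ l)⁻¹ * g ^ k) a := by
        rw [← zpow_neg, ← zpow_add, ← zpow_add, add_comm]
      rw [← Equiv.Perm.mul_apply, h5, Equiv.Perm.mul_apply] at h
      have h6 := congrArg (g ^ l) h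
      rw [← Equiv.Perm.mul_apply, mul_inv_cancel, Equiv.Perm.one_apply] at h6
      exact h6
  have heven : Even n := by
    by_contra hodd
    rw [Nat.not_even_iff_odd] at hodd
    obtain ⟨l, hl⟩ := hodd
    apply hαf ((g ^ ((l : ℤ) + 1)) a)
    rw [hg, alpha_zpow α β hα hβ a ha, ← hg, heq]
    refine ⟨-1, ?_⟩
    rw [hl]; push_cast; ring
  obtain ⟨l, hl⟩ := heven
  have hb1 : (g ^ (l : ℤ)) a ≠ a := by
    intro h
    rw [hper, hl] at h
    have := Int.le_of_dvd (by omega) h
    push_cast at this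
    omega
  refine ⟨(g ^ (l : ℤ)) a, hb1, ?_, mk_zpow α β a l, ?_⟩
  · rw [hg, beta_zpow α β hα hβ a ha, ← hg, heq]
    refine ⟨-1, ?_⟩
    rw [hl]; push_cast; ring
  · intro c hc hac
    obtain ⟨k, rfl⟩ := eq_zpow_of_mk α β hα hβ a ha c hac
    rw [beta_zpow α β hα hβ a ha, ← hg, heq] at hc
    obtain ⟨q, hq⟩ := hc
    have hk : k = l * (-q) := by
      rw [hl] at hq
      push_cast at hq
      linarith
    rcases Int.even_or_odd' (-q) with ⟨r, hr | hr⟩
    · left
      rw [← hg, hper]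
      refine ⟨r, ?_⟩
      rw [hk, hr, hl]; push_cast; ring
    · right
      rw [← hg, heq]
      refine ⟨r, ?_⟩
      rw [hk, hr, hl]; push_cast; ring

end Pool.Agent.H832R2.JR
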