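import Pool.Agent.H832R2.JR.Defs
import Pool.Agent.H832R2.JR.Merge
import Pool.Agent.H832R2.JR.Path

set_option autoImplicit false

namespace Pool.Agent.H832R2.JR

open Function

variable {N : ℕ}

/-- going along an arc of the diagram from one passage to the next one, in both directions -/
def arcFun (G : GaussWord N) : Half N → Half N
  | (p, true) => (next G p, false)
  | (p, false) => ((next G).symm p, true)

theorem arcFun_inv (G : GaussWord N) (x : Half N) : arcFun G (arcFun G x) = x := by
  rcases x with ⟨p, _ | _⟩ <;> simp [arcFun]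

theorem arcFun_ne (G : GaussWord N) (x : Half N) : arcFun G x ≠ x := by
  rcases x with ⟨p, _ | _⟩ <;> simp [arcFun]

/-- how the half edges are joined at the crossings: `0` pass through, `1` oriented smoothing,
`2` unoriented smoothing -/
def smooth (t : Fin N → Fin 3) (x : Half N) : Half N :=
  if t x.1.1 = 0 then (x.1, !x.2) else if t x.1.1 = 1 then ((x.1.1, !x.1.2), !x.2)
  else ((x.1.1, !x.1.2), x.2)

theorem smooth_inv (t : Fin N → Fin 3) (x : Half N) : smooth t (smooth t x) = x := by
  unfold smooth
  split_ifs <;> simp_all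

/-- the number of closed curves -/
noncomputable def L (G : GaussWord N) (t : Fin N → Fin 3) : ℕ :=
  Nat.card (Quot (gen (arcFun G) (smooth t)))

/-- the smoothing maps with the four half edges at the crossing `c` left alone -/
def smoothOff (t : Fin N → Fin 3) (c : Fin N) (x : Half N) : Half N :=
  if x.1.1 = c then x else smooth t x

theorem smooth_fst (t : Fin N → Fin 3) (x : Half N) : (smooth t x).1.1 = x.1.1 := by
  unfold smooth; split_ifs <;> rfl

theorem smoothOff_inv (t : Fin N → Fin 3) (c : Fin N) (x : Half N) :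
    smoothOff t c (smoothOff t c x) = x := by
  unfold smoothOff
  split_ifs with h1 h2
  · rfl
  · rw [smooth_fst] at h2; exact absurd h2 h1
  · exact smooth_inv t x

theorem smooth_ne (t : Fin N → Fin 3) (x : Half N) : smooth t x ≠ x := by
  unfold smooth
  rcases x with ⟨⟨c, b⟩, e⟩
  split_ifs <;> simp

theorem smoothOff_fixed (t : Fin N → Fin 3) (c : Fin N) (x : Half N) :
    smoothOff t c x = x ↔ x.1.1 = c := by
  unfold smoothOff
  split_ifs with h
  · simp [h]
  · simp [h, smooth_ne]

section merge

variable {H : Type} [Finite H] (r : H → H → Prop)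

theorem pair_same (x y u v : H) (h1 : Quot.mk r x = Quot.mk r y) (h2 : Quot.mk r u = Quot.mk r v) :
    Nat.card (Quot (addPair (addPair r x y) u v)) = Nat.card (Quot r) := by
  rw [card_addPair_same, card_addPair_same r x y h1]
  exact quot_mono (fun a b hab => Or.inl hab) h2

theorem pair_diff (x y u v : H) (h1 : Quot.mk r x ≠ Quot.mk r y)
    (h2 : (Quot.mk r u = Quot.mk r x ∧ Quot.mk r v = Quot.mk r y) ∨
      (Quot.mk r u = Quot.mk r y ∧ Quot.mk r v = Quot.mk r x)) :
    Nat.card (Quot (addPair (addPair r x y) u v)) + 1 = Nat.card (Quot r) := by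
  rw [card_addPair_same, card_addPair_diff r x y h1]
  have hm : ∀ {a b : H}, Quot.mk r a = Quot.mk r b →
      Quot.mk (addPair r x y) a = Quot.mk (addPair r x y) b :=
    fun h => quot_mono (fun a b hab => Or.inl hab) h
  rcases h2 with ⟨h3, h4⟩ | ⟨h3, h4⟩
  · rw [hm h3, hm h4]; exact addPair_mk r x y
  · rw [hm h3, hm h4]; exact (addPair_mk r x y).symm

end merge

/-- the number of curves in terms of the relation away from the crossing `c` -/
theorem L_eq (G : GaussWord N) (t : Fin N → Fin 3) (c : Fin N)
    (e1 e2 e3 e4 : Half N) (h12 : smooth t e1 = e2) (h34 : smooth t e3 = e4)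
    (hc : ∀ x : Half N, x.1.1 = c ↔ x = e1 ∨ x = e2 ∨ x = e3 ∨ x = e4) :
    L G t = Nat.card (Quot (addPair (addPair (gen (arcFun G) (smoothOff t c)) e1 e2) e3 e4)) := by
  refine card_quot_congr _ _ ?_ ?_
  · rintro x y (rfl | rfl)
    · exact Quot.sound (Or.inl (Or.inl (Or.inl rfl)))
    · by_cases hx : x.1.1 = c
      · rcases (hc x).1 hx with rfl | rfl | rfl | rfl
        · rw [h12]; exact Quot.sound (Or.inl (Or.inr ⟨rfl, rfl⟩))
        · rw [← h12, smooth_inv]
          exact Eq.symm (Quot.sound (r := addPair (addPair (gen (arcFun G) (smoothOff t c)) e1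
            (smooth t e1)) e3 e4) (Or.inl (Or.inr ⟨rfl, rfl⟩)))
        · rw [h34]; exact Quot.sound (Or.inr ⟨rfl, rfl⟩)
        · rw [← h34, smooth_inv]
          exact Eq.symm (Quot.sound (r := addPair (addPair (gen (arcFun G) (smoothOff t c)) e1
            e2) e3 (smooth t e3)) (Or.inr ⟨rfl, rfl⟩))
      · refine Quot.sound (Or.inl (Or.inl (Or.inr ?_)))
        unfold smoothOff
        rw [if_neg hx]
  · rintro x y ((h | ⟨rfl, rfl⟩) | ⟨rfl, rfl⟩)
    · rcases h with rfl | rfl
      · exact Quot.sound (Or.inl rfl)
      · unfold smoothOff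
        split_ifs with h
        · rfl
        · exact Quot.sound (Or.inr rfl)
    · rw [← h12]; exact Quot.sound (Or.inr rfl)
    · rw [← h34]; exact Quot.sound (Or.inr rfl)

theorem smoothOff_update (t : Fin N → Fin 3) (c : Fin N) (k : Fin 3) :
    smoothOff (update t c k) c = smoothOff t c := by
  funext x
  unfold smoothOff
  split_ifs with h
  · rfl
  · unfold smooth
    rw [update_of_ne h]

/-- **Three term lemma**: of the three ways to join the strands at a crossing, one gives one closed
curve more than the two others. -/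
theorem three_term (G : GaussWord N) (t : Fin N → Fin 3) (c : Fin N) :
    ∃ n : ℕ,
      (L G (update t c 0) = n + 1 ∧ L G (update t c 1) = n ∧ L G (update t c 2) = n) ∨
      (L G (update t c 0) = n ∧ L G (update t c 1) = n + 1 ∧ L G (update t c 2) = n) ∨
      (L G (update t c 0) = n ∧ L G (update t c 1) = n ∧ L G (update t c 2) = n + 1) := by
  classical
  set r := gen (arcFun G) (smoothOff t c) with hr
  have hc : ∀ x : Half N, x.1.1 = c ↔ x = ((c, false), false) ∨ x = ((c, false), true) ∨
      x = ((c, true), false) ∨ x = ((c, true), true) := by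
    rintro ⟨⟨d, b⟩, e⟩
    cases b <;> cases e <;> simp
  have L0 : L G (update t c 0) = Nat.card (Quot (addPair (addPair r ((c, false), false)
      ((c, false), true)) ((c, true), false) ((c, true), true))) := by
    rw [L_eq G (update t c 0) c ((c, false), false) ((c, false), true) ((c, true), false)
      ((c, true), true) (by simp [smooth]) (by simp [smooth]) (by intro x; rw [hc]),
      smoothOff_update]
  have L1 : L G (update t c 1) = Nat.card (Quot (addPair (addPair r ((c, false), false)
      ((c, true), true)) ((c, true), false) ((c, false), true))) := by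
    rw [L_eq G (update t c 1) c ((c, false), false) ((c, true), true) ((c, true), false)
      ((c, false), true) (by simp [smooth]) (by simp [smooth]) (by intro x; rw [hc]; tauto),
      smoothOff_update]
  have L2 : L G (update t c 2) = Nat.card (Quot (addPair (addPair r ((c, false), false)
      ((c, true), false)) ((c, false), true) ((c, true), true))) := by
    rw [L_eq G (update t c 2) c ((c, false), false) ((c, true), false) ((c, false), true)
      ((c, true), true) (by simp [smooth]) (by simp [smooth]) (by intro x; rw [hc]; tauto),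
      smoothOff_update]
  let α : Equiv.Perm (Half N) := (Function.Involutive.toPerm (arcFun G) (arcFun_inv G))
  let β : Equiv.Perm (Half N) := (Function.Involutive.toPerm (smoothOff t c) (smoothOff_inv t c))
  have path : ∀ a : Half N, a.1.1 = c → ∃ b, b ≠ a ∧ b.1.1 = c ∧
      Quot.mk r b = Quot.mk r a ∧ ∀ d : Half N, d.1.1 = c → Quot.mk r a = Quot.mk r d →
        d = a ∨ d = b := by
    intro a ha
    obtain ⟨b, hb1, hb2, hb3, hb4⟩ := path_lemma α β (arcFun_inv G) (smoothOff_inv t c)
      (arcFun_ne G) a ((smoothOff_fixed t c a).2 ha)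
    exact ⟨b, hb1, (smoothOff_fixed t c b).1 hb2, hb3,
      fun d hd => hb4 d ((smoothOff_fixed t c d).2 hd)⟩
  have path' : ∀ a b d e : Half N, (∀ x : Half N, x.1.1 = c ↔ x = a ∨ x = b ∨ x = d ∨ x = e) →
      d ≠ a → d ≠ b → e ≠ a → e ≠ b →
      Quot.mk r a = Quot.mk r b → (∀ z : Half N, z.1.1 = c → Quot.mk r a = Quot.mk r z →
        z = a ∨ z = b) →
      Quot.mk r d = Quot.mk r e ∧ Quot.mk r a ≠ Quot.mk r d ∧ Quot.mk r a ≠ Quot.mk r e := by
    intro a b d e hx hda hdb hea heb hab hu
    have hd : d.1.1 = c := (hx d).2 (by tauto)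
    have he : e.1.1 = c := (hx e).2 (by tauto)
    have h1 : Quot.mk r a ≠ Quot.mk r d := by
      intro h
      rcases hu d hd h with h | h
      · exact hda h
      · exact hdb h
    have h2 : Quot.mk r a ≠ Quot.mk r e := by
      intro h
      rcases hu e he h with h | h
      · exact hea h
      · exact heb h
    refine ⟨?_, h1, h2⟩
    obtain ⟨b', hb1, hb2, hb3, hb4⟩ := path d hd
    rcases (hx b').1 hb2 with rfl | rfl | rfl | rfl
    · exact absurd hb3 h1
    · exact absurd (hab.trans hb3) h1
    · exact absurd rfl hb1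
    · exact hb3.symm
  obtain ⟨b, hb1, hb2, hb3, hb4⟩ := path ((c, false), false) rfl
  rcases (hc b).1 hb2 with rfl | rfl | rfl | rfl
  · exact absurd rfl hb1
  · obtain ⟨h1, h2, h3⟩ := path' ((c, false), false) ((c, false), true) ((c, true), false)
      ((c, true), true) hc (by simp) (by simp) (by simp) (by simp) hb3.symm hb4
    have e0 := pair_same r _ _ _ _ hb3.symm h1
    have e1 := pair_diff r _ _ _ _ h3 (Or.inr ⟨h1, hb3⟩)
    have e2 := pair_diff r _ _ _ _ h2 (Or.inl ⟨hb3, h1.symm⟩)
    rw [← L0] at e0
    rw [← L1] at e1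
    rw [← L2] at e2
    exact ⟨L G (update t c 1), by omega⟩
  · obtain ⟨h1, h2, h3⟩ := path' ((c, false), false) ((c, true), false) ((c, false), true)
      ((c, true), true) (by intro x; rw [hc]; tauto) (by simp) (by simp) (by simp) (by simp)
      hb3.symm hb4
    have e2 := pair_same r _ _ _ _ hb3.symm h1
    have e0 := pair_diff r _ _ _ _ h2 (Or.inl ⟨hb3, h1.symm⟩)
    have e1 := pair_diff r _ _ _ _ h3 (Or.inl ⟨hb3, h1⟩)
    rw [← L0] at e0
    rw [← L1] at e1
    rw [← L2] at e2
    exact ⟨L G (update t c 1), by omega⟩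
  · obtain ⟨h1, h2, h3⟩ := path' ((c, false), false) ((c, true), true) ((c, true), false)
      ((c, false), true) (by intro x; rw [hc]; tauto) (by simp) (by simp) (by simp) (by simp)
      hb3.symm hb4
    have e1 := pair_same r _ _ _ _ hb3.symm h1
    have e0 := pair_diff r _ _ _ _ h3 (Or.inr ⟨h1, hb3⟩)
    have e2 := pair_diff r _ _ _ _ h2 (Or.inr ⟨h1.symm, hb3⟩)
    rw [← L0] at e0
    rw [← L1] at e1
    rw [← L2] at e2
    exact ⟨L G (update t c 0), by omega⟩

end Pool.Agent.H832R2.JR
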