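import Pool.Agent.H832R2.JR.States

set_option autoImplicit false

namespace Pool.Agent.H832R2.JR

open Function

variable {N : ℕ}

theorem pos_ne (G : GaussWord N) {x y : Fin N × Bool} (h : x ≠ y) :
    (G x : ℕ) ≠ (G y : ℕ) := by
  intro h1
  exact h (G.injective (Fin.ext h1))

theorem not_crosses_self (G : GaussWord N) (i : Fin N) : ¬ Crosses G i i := by
  unfold Crosses Btw
  omega

theorem crosses_symm (G : GaussWord N) (i j : Fin N) (h : Crosses G i j) :
    Crosses G j i := by
  by_cases hij : i = j
  · subst hij; exact h
  have h1 := pos_ne G (x := (i, false)) (y := (j, false)) (by simp [hij])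
  have h2 := pos_ne G (x := (i, false)) (y := (j, true)) (by simp [hij])
  have h3 := pos_ne G (x := (i, true)) (y := (j, false)) (by simp [hij])
  have h4 := pos_ne G (x := (i, true)) (y := (j, true)) (by simp [hij])
  have h5 := pos_ne G (x := (i, false)) (y := (i, true)) (by simp)
  have h6 := pos_ne G (x := (j, false)) (y := (j, true)) (by simp)
  unfold Crosses Btw at *
  omega

theorem finRotate_val {n : ℕ} (i : Fin n) :
    ((finRotate n i : Fin n) : ℕ) = if (i : ℕ) + 1 = n then 0 else (i : ℕ) + 1 := by
  cases n with
  | zero => exact i.elim0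
  | succ n =>
    rw [finRotate_apply]
    split_ifs with h
    · have : i = Fin.last n := Fin.ext (by simp; omega)
      rw [this, Fin.last_add_one]; rfl
    · rw [Fin.val_add_one_of_lt]
      rw [Fin.lt_def, Fin.val_last]
      have := i.2
      omega

theorem next_val (G : GaussWord N) (x : Fin N × Bool) :
    (G (next G x) : ℕ) = if (G x : ℕ) + 1 = 2 * N then 0 else (G x : ℕ) + 1 := by
  unfold next
  rw [Equiv.trans_apply, Equiv.trans_apply, Equiv.apply_symm_apply, finRotate_val]

/-- parity of the number of passages of the crossing `i` before the half edge `x` -/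
def chi (G : GaussWord N) (i : Fin N) : Half N → Bool
  | (x, true) => xor (decide ((G (i, false) : ℕ) ≤ G x)) (decide ((G (i, true) : ℕ) ≤ G x))
  | (x, false) => xor (decide ((G (i, false) : ℕ) < G x)) (decide ((G (i, true) : ℕ) < G x))

theorem xor_dec (A B : Prop) [Decidable A] [Decidable B] :
    (xor (decide A) (decide B) = true) ↔ ¬ (A ↔ B) := by
  by_cases hA : A <;> by_cases hB : B <;> simp [hA, hB]

theorem chi_next (G : GaussWord N) (i : Fin N) (p : Fin N × Bool) :
    chi G i (next G p, false) = chi G i (p, true) := by
  unfold chi
  simp only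
  rw [next_val]
  have h1 := (G (i, false)).2
  have h2 := (G (i, true)).2
  split_ifs with h
  · have e1 : ((G (i, false) : ℕ) ≤ G p) := by omega
    have e2 : ((G (i, true) : ℕ) ≤ G p) := by omega
    simp [e1, e2]
  · have e1 : ((G (i, false) : ℕ) < G p + 1) ↔ ((G (i, false) : ℕ) ≤ G p) := by omega
    have e2 : ((G (i, true) : ℕ) < G p + 1) ↔ ((G (i, true) : ℕ) ≤ G p) := by omega
    simp only [e1, e2]

theorem chi_arc (G : GaussWord N) (i : Fin N) (x : Half N) :
    chi G i (arcFun G x) = chi G i x := by
  rcases x with ⟨p, _ | _⟩
  · show chi G i ((next G).symm p, true) = chi G i (p, false)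
    rw [← chi_next, Equiv.apply_symm_apply]
  · exact chi_next G i p

theorem chi_pass (G : GaussWord N) (i c : Fin N) (h : c ≠ i) (b e : Bool) :
    chi G i ((c, b), !e) = chi G i ((c, b), e) := by
  have h1 := pos_ne G (x := (i, false)) (y := (c, b)) (by simp [h.symm])
  have h2 := pos_ne G (x := (i, true)) (y := (c, b)) (by simp [h.symm])
  have e1 : ((G (i, false) : ℕ) ≤ G (c, b)) ↔ ((G (i, false) : ℕ) < G (c, b)) := by omega
  have e2 : ((G (i, true) : ℕ) ≤ G (c, b)) ↔ ((G (i, true) : ℕ) < G (c, b)) := by omega
  cases e <;> simp [chi, e1, e2]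

theorem chi_self_pass (G : GaussWord N) (i : Fin N) (b e : Bool) :
    chi G i ((i, b), !e) = !chi G i ((i, b), e) := by
  have h1 := pos_ne G (x := (i, false)) (y := (i, true)) (by simp)
  have e1 : ((G (i, false) : ℕ) ≤ G (i, true)) ↔ ((G (i, false) : ℕ) < G (i, true)) := by omega
  have e2 : ((G (i, true) : ℕ) ≤ G (i, false)) ↔ ((G (i, true) : ℕ) < G (i, false)) := by omega
  cases e <;> cases b <;> simp [chi, e1, e2]

theorem chi_self_or (G : GaussWord N) (i : Fin N) (b e : Bool) :
    chi G i ((i, !b), !e) = chi G i ((i, b), e) := by
  have h1 := pos_ne G (x := (i, false)) (y := (i, true)) (by simp)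
  rcases Nat.lt_or_gt_of_ne h1 with h | h
  · have e1 : ((G (i, false) : ℕ) ≤ G (i, true)) := by omega
    have e2 : ¬ ((G (i, true) : ℕ) ≤ G (i, false)) := by omega
    have e3 : ¬ ((G (i, true) : ℕ) < G (i, false)) := by omega
    cases e <;> cases b <;> simp [chi, e1, e2, e3, h]
  · have e1 : ¬ ((G (i, false) : ℕ) ≤ G (i, true)) := by omega
    have e2 : ((G (i, true) : ℕ) ≤ G (i, false)) := by omega
    have e3 : ¬ ((G (i, false) : ℕ) < G (i, true)) := by omega
    cases e <;> cases b <;> simp [chi, e1, e2, e3, h]

theorem chi_other (G : GaussWord N) (i c : Fin N) (h : c ≠ i) (b e : Bool) :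
    (chi G i ((c, !b), e) = chi G i ((c, b), e)) ↔ ¬ Crosses G i c := by
  have h1 := pos_ne G (x := (i, false)) (y := (c, false)) (by simp [h.symm])
  have h2 := pos_ne G (x := (i, false)) (y := (c, true)) (by simp [h.symm])
  have h3 := pos_ne G (x := (i, true)) (y := (c, false)) (by simp [h.symm])
  have h4 := pos_ne G (x := (i, true)) (y := (c, true)) (by simp [h.symm])
  have h5 := pos_ne G (x := (i, false)) (y := (i, true)) (by simp)
  have key : ∀ b, chi G i ((c, b), e) = true ↔ Btw (G (i, false)) (G (i, true)) (G (c, b)) := by
    intro b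
    have h6 := pos_ne G (x := (i, false)) (y := (c, b)) (by simp [h.symm])
    have h7 := pos_ne G (x := (i, true)) (y := (c, b)) (by simp [h.symm])
    unfold Btw
    cases e <;> simp only [chi, xor_dec] <;> omega
  unfold Crosses
  rw [← key false, ← key true, Bool.eq_iff_iff]
  cases b <;> simp only [Bool.not_true, Bool.not_false] <;> tauto

theorem one_le_L (G : GaussWord N) (t : Fin N → Fin 3) (i : Fin N) :
    1 ≤ L G t := by
  have : Finite (Quot (gen (arcFun G) (smooth t))) := Quot.finite _
  have : Nonempty (Quot (gen (arcFun G) (smooth t))) := ⟨Quot.mk _ ((i, false), false)⟩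
  exact Nat.card_pos

theorem two_le_L (G : GaussWord N) (t : Fin N → Fin 3) (f : Half N → Bool)
    (h1 : ∀ x, f (arcFun G x) = f x) (h2 : ∀ x, f (smooth t x) = f x) (x y : Half N)
    (hxy : f x ≠ f y) : 2 ≤ L G t := by
  have : Finite (Quot (gen (arcFun G) (smooth t))) := Quot.finite _
  have h3 : ∀ a b, gen (arcFun G) (smooth t) a b → f a = f b := by
    rintro a b (rfl | rfl)
    · exact (h1 a).symm
    · exact (h2 a).symm
  have h4 : Quot.mk (gen (arcFun G) (smooth t)) x ≠ Quot.mk _ y := by
    intro h
    exact hxy (congrArg (Quot.lift f h3) h)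
  have : Nontrivial (Quot (gen (arcFun G) (smooth t))) := ⟨_, _, h4⟩
  exact Finite.one_lt_card

theorem L_zero (G : GaussWord N) (i : Fin N) : L G (fun _ => 0) = 1 := by
  have hN : 0 < 2 * N := by have := i.2; omega
  set r := gen (arcFun G) (smooth (fun _ : Fin N => (0 : Fin 3))) with hr
  have h1 : ∀ p e, Quot.mk r (p, e) = Quot.mk r (p, !e) := by
    intro p e
    exact Quot.sound (Or.inr (by simp [smooth]))
  have h2 : ∀ p e, Quot.mk r (p, e) = Quot.mk r (p, false) := by
    intro p e
    cases e
    · rfl
    · exact h1 p true
  have h3 : ∀ p, Quot.mk r (next G p, false) = Quot.mk r (p, false) := by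
    intro p
    rw [← h2 p true]
    show Quot.mk r (arcFun G (p, true)) = Quot.mk r (p, true)
    exact (Quot.sound (r := r) (Or.inl rfl)).symm
  have h4 : ∀ k (hk : k < 2 * N), Quot.mk r (G.symm ⟨k, hk⟩, false) =
      Quot.mk r (G.symm ⟨0, hN⟩, false) := by
    intro k
    induction k with
    | zero => intro hk; rfl
    | succ k ih =>
      intro hk
      rw [← ih (by omega), ← h3 (G.symm ⟨k, by omega⟩)]
      congr 2
      apply G.injective
      apply Fin.ext
      rw [next_val]
      simp
      omega
  have h5 : Subsingleton (Quot r) := by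
    constructor
    rintro ⟨⟨p, e⟩⟩ ⟨⟨q, e'⟩⟩
    show Quot.mk r (p, e) = Quot.mk r (q, e')
    rw [h2 p e, h2 q e']
    have hp := h4 (G p) (G p).2
    have hq := h4 (G q) (G q).2
    simp only [Fin.eta, Equiv.symm_apply_apply] at hp hq
    rw [hp, hq]
  have h6 : Nonempty (Quot r) := ⟨Quot.mk _ ((i, false), false)⟩
  have h7 : Nat.card (Quot r) = 1 := Nat.card_eq_one_iff_unique.mpr ⟨h5, h6⟩
  exact h7

theorem L_one (G : GaussWord N) (i : Fin N) :
    L G (update (fun _ => 0) i 2) = 1 := by
  have h0 : L G (update (fun _ => 0) i 0) = 1 := by
    rw [update_eq_self_iff.2 rfl]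
    exact L_zero G i
  have h1 : 2 ≤ L G (update (fun _ => 0) i 1) := by
    refine two_le_L G _ (chi G i) (chi_arc G i) ?_ ((i, false), false) ((i, false), true) ?_
    · rintro ⟨⟨c, b⟩, e⟩
      by_cases hc : c = i
      · subst hc
        simp only [smooth, update_self]
        simpa using chi_self_or G c b e
      · simp only [smooth, update_of_ne hc]
        simpa using chi_pass G i c hc b e
    · have := chi_self_pass G i false true
      simp only [Bool.not_true] at this
      rw [this]
      simp
  obtain ⟨n, h⟩ := three_term G (fun _ => 0) i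
  have := one_le_L G (update (fun _ => 0) i 2) i
  omega

theorem L_two (G : GaussWord N) (i j : Fin N) (hij : i ≠ j) :
    (Crosses G i j → L G (update (update (fun _ => 0) i 2) j 2) = 2) ∧
    (¬ Crosses G i j → L G (update (update (fun _ => 0) i 2) j 2) = 1) := by
  have h0 : L G (update (update (fun _ => 0) i 2) j 0) = 1 := by
    rw [update_eq_self_iff.2]
    · exact L_one G i
    · rw [update_of_ne hij.symm]
  obtain ⟨n, h⟩ := three_term G (update (fun _ => 0) i 2) j
  have p1 := one_le_L G (update (update (fun _ => 0) i 2) j 1) i
  have p2 := one_le_L G (update (update (fun _ => 0) i 2) j 2) i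
  constructor
  · intro hc
    have h2 : 2 ≤ L G (update (update (fun _ => 0) i 2) j 2) := by
      refine two_le_L G _ (fun x => xor (chi G i x) (chi G j x)) ?_ ?_ ((i, false), false)
        ((i, false), true) ?_
      · intro x
        simp only [chi_arc]
      · rintro ⟨⟨c, b⟩, e⟩
        by_cases hci : c = i
        · subst hci
          have e1 : chi G c ((c, !b), e) = !chi G c ((c, b), e) := by
            have := chi_self_or G c (!b) e
            have h' := chi_self_pass G c b e
            rw [Bool.not_not] at this
            rw [← this, h']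
          have e2 : chi G j ((c, !b), e) = !chi G j ((c, b), e) := by
            have := (not_congr (chi_other G j c hij b e)).2 (not_not.2 (crosses_symm G _ _ hc))
            revert this
            cases chi G j ((c, !b), e) <;> cases chi G j ((c, b), e) <;> simp
          simp only [smooth, update_of_ne hij, update_self]
          simp [e1, e2]
        · by_cases hcj : c = j
          · subst hcj
            have e1 : chi G c ((c, !b), e) = !chi G c ((c, b), e) := by
              have := chi_self_or G c (!b) e
              have h' := chi_self_pass G c b e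
              rw [Bool.not_not] at this
              rw [← this, h']
            have e2 : chi G i ((c, !b), e) = !chi G i ((c, b), e) := by
              have := (not_congr (chi_other G i c hci b e)).2 (not_not.2 hc)
              revert this
              cases chi G i ((c, !b), e) <;> cases chi G i ((c, b), e) <;> simp
            simp only [smooth, update_self]
            simp [e1, e2]
          · simp only [smooth, update_of_ne hci, update_of_ne hcj]
            simp [chi_pass G i c hci b e, chi_pass G j c hcj b e]
      · have e1 := chi_self_pass G i false true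
        have e2 := chi_pass G j i hij false true
        simp only [Bool.not_true] at e1 e2
        simp only [e1, e2]
        cases chi G i ((i, false), true) <;> cases chi G j ((i, false), true) <;> simp
    omega
  · intro hc
    have h2 : 2 ≤ L G (update (update (fun _ => 0) i 2) j 1) := by
      refine two_le_L G _ (chi G j) (chi_arc G j) ?_ ((j, false), false) ((j, false), true) ?_
      · rintro ⟨⟨c, b⟩, e⟩
        by_cases hcj : c = j
        · subst hcj
          simp only [smooth, update_self]
          simpa using chi_self_or G c b e
        · by_cases hci : c = i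
          · subst hci
            simp only [smooth, update_of_ne hcj, update_self]
            have := (chi_other G j c hcj b e).2 (fun h' => hc (crosses_symm G _ _ h'))
            simpa using this
          · simp only [smooth, update_of_ne hci, update_of_ne hcj]
            simpa using chi_pass G j c hcj b e
      · have := chi_self_pass G j false true
        simp only [Bool.not_true] at this
        rw [this]
        simp
    omega

end Pool.Agent.H832R2.JR
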