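import Pool.Agent.H832R2.JR.Values

set_option autoImplicit false

namespace Pool.Agent.H832R2.JR

open Function Finset

variable {N : ℕ}

/-- weighted sum over all ways to join the strands at the crossings -/
noncomputable def Z (G : GaussWord N) (a : Fin N → Fin 3 → ℤ) : ℤ :=
  ∑ t : Fin N → Fin 3, (∏ c, a c (t c)) * (-2) ^ L G t

theorem Z_upd (G : GaussWord N) (a : Fin N → Fin 3 → ℤ) (c : Fin N)
    (v : Fin 3 → ℤ) :
    Z G (update a c v) =
      ∑ t : Fin N → Fin 3, v (t c) * ((∏ d ∈ univ.erase c, a d (t d)) * (-2) ^ L G t) := by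
  unfold Z
  refine sum_congr rfl fun t _ => ?_
  rw [← mul_prod_erase univ (fun d => update a c v d (t d)) (mem_univ c), update_self, mul_assoc]
  congr 2
  refine prod_congr rfl fun d hd => ?_
  rw [update_of_ne (ne_of_mem_erase hd)]

theorem Z_const (G : GaussWord N) (a : Fin N → Fin 3 → ℤ) (c : Fin N) (l : ℤ) :
    Z G (update a c (fun _ => l)) = 0 := by
  rw [Z_upd]
  set F : (Fin N → Fin 3) → ℤ := fun t => l * ((∏ d ∈ univ.erase c, a d (t d)) * (-2) ^ L G t)
    with hF
  show ∑ t, F t = 0
  have h1 : ∀ t, ∑ k : Fin 3, F (update t c k) = 0 := by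
    intro t
    have h2 : ∀ k, ∏ d ∈ univ.erase c, a d (update t c k d) = ∏ d ∈ univ.erase c, a d (t d) := by
      intro k
      refine prod_congr rfl fun d hd => ?_
      rw [update_of_ne (ne_of_mem_erase hd)]
    simp only [hF, h2]
    rw [← mul_sum, ← mul_sum, Fin.sum_univ_three]
    obtain ⟨n, ⟨e0, e1, e2⟩ | ⟨e0, e1, e2⟩ | ⟨e0, e1, e2⟩⟩ := three_term G t c <;>
      rw [e0, e1, e2] <;> ring
  have h2 : ∑ t, ∑ k : Fin 3, F (update t c k) = 3 * ∑ t, F t := by
    rw [← Fintype.sum_prod_type' (f := fun t k => F (update t c k))]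
    have e : ∑ x : (Fin N → Fin 3) × Fin 3, F (update x.1 c x.2) =
        ∑ x : (Fin N → Fin 3) × Fin 3, F x.1 := by
      refine Fintype.sum_equiv (Function.Involutive.toPerm
        (fun x : (Fin N → Fin 3) × Fin 3 => (update x.1 c x.2, x.1 c)) ?_) _ _ ?_
      · rintro ⟨t, k⟩
        simp
      · rintro ⟨t, k⟩
        rfl
    rw [e, Fintype.sum_prod_type]
    simp [mul_sum]
  rw [sum_congr rfl (fun t _ => h1 t)] at h2
  simp at h2
  exact h2

theorem Z_shift (G : GaussWord N) (a : Fin N → Fin 3 → ℤ) (c : Fin N)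
    (v : Fin 3 → ℤ) (l : ℤ) :
    Z G (update a c v) = Z G (update a c (fun k => v k - l)) := by
  have h := Z_const G a c l
  rw [Z_upd] at h ⊢
  rw [Z_upd, ← sub_eq_zero, ← sum_sub_distrib, ← h]
  refine sum_congr rfl fun t _ => ?_
  ring

theorem Z_shift_all (G : GaussWord N) (a : Fin N → Fin 3 → ℤ) (l : ℤ) :
    Z G a = Z G (fun c k => a c k - l) := by
  classical
  have key : ∀ S : Finset (Fin N), Z G a = Z G (fun c k => if c ∈ S then a c k - l else a c k) := by
    intro S
    induction S using Finset.induction_on with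
    | empty => simp
    | insert c S hc ih =>
      rw [ih]
      have h1 : (fun c k => if c ∈ S then a c k - l else a c k) =
          update (fun c k => if c ∈ S then a c k - l else a c k) c (a c) := by
        funext d k
        by_cases hd : d = c
        · subst hd; simp [hc]
        · simp [update_of_ne hd]
      rw [h1, Z_shift G _ c (a c) l]
      congr 1
      funext d k
      by_cases hd : d = c
      · subst hd; simp
      · simp [update_of_ne hd, hd]
  rw [key univ]
  simp

theorem Z_sub (G : GaussWord N) (a : Fin N → Fin 3 → ℤ) (c : Fin N)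
    (u v : Fin 3 → ℤ) :
    Z G (update a c (fun k => u k - v k)) = Z G (update a c u) - Z G (update a c v) := by
  rw [Z_upd, Z_upd, Z_upd, ← sum_sub_distrib]
  refine sum_congr rfl fun t _ => ?_
  ring

theorem Z_delta (G : GaussWord N) (t : Fin N → Fin 3) :
    Z G (fun c k => if k = t c then -1 else 0) = (-1) ^ N * (-2) ^ L G t := by
  unfold Z
  rw [Finset.sum_eq_single t]
  · simp
  · intro t' _ ht
    obtain ⟨c, hc⟩ := Function.ne_iff.1 ht
    rw [prod_eq_zero (mem_univ c) (if_neg hc), zero_mul]
  · intro h; exact absurd (mem_univ t) h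

theorem Z_delta_upd (G : GaussWord N) (t : Fin N → Fin 3) (c : Fin N) (m : Fin 3) :
    update (fun (c : Fin N) (k : Fin 3) => if k = t c then (-1 : ℤ) else 0) c
      (fun k => if k = m then -1 else 0) = fun d k => if k = update t c m d then -1 else 0 := by
  funext d k
  by_cases hd : d = c
  · subst hd; simp
  · simp [update_of_ne hd]

open Classical in
/-- the mixed second moment of the smoothing pattern -/
theorem Z_pair (G : GaussWord N) (i j : Fin N) (hij : i ≠ j) :
    Z G (fun c k => if c = i ∨ c = j then (if k = 0 then 0 else if k = 1 then 1 else 2)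
      else (if k = 0 then 0 else 1)) = (-1) ^ N * (if Crosses G i j then 6 else 0) := by
  classical
  rw [Z_shift_all G _ 1]
  set D : (Fin N → Fin 3) → Fin N → Fin 3 → ℤ := fun t c k => if k = t c then -1 else 0 with hD
  set d : Fin 3 → Fin 3 → ℤ := fun m k => if k = m then -1 else 0 with hd
  have hDu : ∀ t c m, update (D t) c (d m) = D (update t c m) := fun t c m => Z_delta_upd G t c m
  have hZ : ∀ t, Z G (D t) = (-1) ^ N * (-2) ^ L G t := Z_delta G
  have h1 : (fun (c : Fin N) (k : Fin 3) => (if c = i ∨ c = j then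
      (if k = 0 then (0 : ℤ) else if k = 1 then 1 else 2) else (if k = 0 then 0 else 1)) - 1) =
      update (update (D (fun _ => 0)) i (fun k => d 0 k - d 2 k)) j (fun k => d 0 k - d 2 k) := by
    funext c k
    by_cases hcj : c = j
    · subst hcj
      simp only [or_true, if_true, update_self, hd]
      fin_cases k <;> simp
    · by_cases hci : c = i
      · subst hci
        simp only [true_or, if_true, update_of_ne hcj, update_self, hd]
        fin_cases k <;> simp
      · simp only [update_of_ne hcj, update_of_ne hci, hD]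
        fin_cases k <;> simp [hci, hcj]
  have h2 : ∀ v : Fin 3 → ℤ, update (update (D (fun _ => 0)) i (fun k => d 0 k - d 2 k)) j v =
      update (update (D (fun _ => 0)) j v) i (fun k => d 0 k - d 2 k) := by
    intro v
    rw [update_comm hij.symm]
  rw [h1, Z_sub, h2, h2, hDu, hDu, Z_sub, Z_sub, hDu, hDu, hDu, hDu, hZ, hZ, hZ, hZ]
  have u0 : update (fun _ : Fin N => (0 : Fin 3)) j 0 = fun _ => 0 := update_eq_self_iff.2 rfl
  have u0' : update (fun _ : Fin N => (0 : Fin 3)) i 0 = fun _ => 0 := update_eq_self_iff.2 rfl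
  have u1 : update (update (fun _ : Fin N => (0 : Fin 3)) j 2) i 0 =
      update (fun _ => 0) j 2 := update_eq_self_iff.2 (by rw [update_of_ne hij])
  have u2 : update (update (fun _ : Fin N => (0 : Fin 3)) j 2) i 2 =
      update (update (fun _ : Fin N => (0 : Fin 3)) i 2) j 2 := (update_comm hij _ _ _).symm
  rw [u0, u0', u1, u2, L_zero G i, L_one G i, L_one G j]
  split_ifs with h
  · rw [(L_two G i j hij).1 h]; ring
  · rw [(L_two G i j hij).2 h]; ring

end Pool.Agent.H832R2.JR
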